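import Pool.Agent.Lib.MP_d9bc60_nt.AQ.QBH

/-! The Brun-Hooley lower bound sieve in dimension 3 (as `AQ.QBH`, with `3/(p-1)` for `2/(p-1)`). -/

set_option autoImplicit false

namespace Pool.Agent.Lib.MP_57ec86_nt

open Finset Pool.Agent.Lib.MP_d9bc60_nt.UV Pool.Agent.Lib.MP_d9bc60_nt.AP

/-- The density functions of dimension 3: multiplicative over distinct primes, at most `3/(p-1)`. -/
structure Dens3 (ν : ℕ → ℝ) : Prop where
  one : ν 1 = 1
  nonneg : ∀ d, 0 ≤ ν d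
  mul : ∀ d e : ℕ, d.Coprime e → ν (d * e) = ν d * ν e
  three : ν 3 ≤ 1 / 2
  le : ∀ p : ℕ, p.Prime → 5 ≤ p → ν p ≤ 3 / ((p : ℝ) - 1)

theorem k3_nu (ν : ℕ → ℝ) (hν : Dens3 ν) (U : Finset ℕ) (hU : ∀ p ∈ U, p.Prime) :
    ν (∏ p ∈ U, p) = ∏ p ∈ U, ν p := by
  classical
  induction U using Finset.induction_on with
  | empty => simp [hν.one]
  | insert q U hq ih =>
    rw [Finset.prod_insert hq, Finset.prod_insert hq, hν.mul, ih]
    · intro p hp; exact hU p (Finset.mem_insert_of_mem hp)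
    · refine Nat.Coprime.prod_right fun p hp => ?_
      refine (Nat.coprime_primes (hU q (Finset.mem_insert_self _ _))
        (hU p (Finset.mem_insert_of_mem hp))).2 ?_
      rintro rfl
      exact hq hp

theorem k3_expand {ι : Type*} (I : Finset ι) (w : ι → ℝ) (a : ι → ℕ) (X z Y : ℝ) (ν : ℕ → ℝ)
    (hν : Dens3 ν) (J : Finset ℕ) (B : ℕ → Finset ℕ)
    (hB : ∀ j ∈ J, ∀ p ∈ B j, p.Prime ∧ 3 ≤ p ∧ (p : ℝ) < z)
    (hdis : ∀ i ∈ J, ∀ j ∈ J, i ≠ j → Disjoint (B i) (B j))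
    (F : ℕ → Finset (Finset ℕ)) (hF : ∀ j ∈ J, ∀ S ∈ F j, S ⊆ B j)
    (c : ℕ → Finset ℕ → ℝ) (hc : ∀ j S, |c j S| ≤ 1)
    (hY : ∀ S : ℕ → Finset ℕ, (∀ j ∈ J, S j ∈ F j) → ((∏ j ∈ J, ∏ p ∈ S j, p : ℕ) : ℝ) ≤ Y) :
    |∑ i ∈ I, w i * ∏ j ∈ J, (∑ S ∈ F j, if (∏ p ∈ S, p) ∣ a i then c j S else 0) -
      X * ∏ j ∈ J, ∑ S ∈ F j, c j S * ν (∏ p ∈ S, p)| ≤
      ∑ d ∈ Dset z Y, Rem I w a X ν d := by
  classical
  -- the choices
  set PS : Finset (∀ _ : J, Finset ℕ) := Fintype.piFinset (fun j : J => F j) with hPS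
  set U : (∀ _ : J, Finset ℕ) → Finset ℕ := fun x => Finset.univ.biUnion x with hUdef
  set Dx : (∀ _ : J, Finset ℕ) → ℕ := fun x => ∏ p ∈ U x, p with hDx
  set Cx : (∀ _ : J, Finset ℕ) → ℝ := fun x => ∏ j : J, c j (x j) with hCx
  have hxF : ∀ x ∈ PS, ∀ j : J, x j ∈ F j := fun x hx j => (Fintype.mem_piFinset.1 hx) j
  have hxB : ∀ x ∈ PS, ∀ j : J, x j ⊆ B j := fun x hx j => hF j j.2 _ (hxF x hx j)
  have hxP : ∀ x ∈ PS, ∀ j : J, ∀ p ∈ x j, p.Prime := fun x hx j p hp =>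
    (hB j j.2 p (hxB x hx j hp)).1
  have hUmem : ∀ x p, p ∈ U x ↔ ∃ j : J, p ∈ x j := by
    intro x p
    simp [hUdef]
  have hUP : ∀ x ∈ PS, ∀ p ∈ U x, p.Prime := by
    intro x hx p hp
    obtain ⟨j, hj⟩ := (hUmem x p).1 hp
    exact hxP x hx j p hj
  have hdisj : ∀ x ∈ PS, (↑(Finset.univ : Finset J) : Set J).PairwiseDisjoint x := by
    intro x hx i _ j _ hij
    have h1 : (i : ℕ) ≠ j := fun h => hij (Subtype.ext h)
    exact Finset.disjoint_of_subset_left (hxB x hx i)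
      (Finset.disjoint_of_subset_right (hxB x hx j) (hdis i i.2 j j.2 h1))
  have hDprod : ∀ x ∈ PS, Dx x = ∏ j : J, ∏ p ∈ x j, p := by
    intro x hx
    exact Finset.prod_biUnion (hdisj x hx)
  have hdvd : ∀ x ∈ PS, ∀ n : ℕ, Dx x ∣ n ↔ ∀ j : J, (∏ p ∈ x j, p) ∣ n := by
    intro x hx n
    rw [hDx]
    simp only
    rw [h03_dvd_iff _ (hUP x hx)]
    constructor
    · intro h j
      rw [h03_dvd_iff _ (hxP x hx j)]
      intro p hp
      exact h p ((hUmem x p).2 ⟨j, hp⟩)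
    · intro h p hp
      obtain ⟨j, hj⟩ := (hUmem x p).1 hp
      exact (h03_dvd_iff _ (hxP x hx j) n).1 (h j) p hj
  have hprodif : ∀ x ∈ PS, ∀ n : ℕ, (∏ j : J, if (∏ p ∈ x j, p) ∣ n then c j (x j) else 0) =
      if Dx x ∣ n then Cx x else 0 := by
    intro x hx n
    by_cases h : Dx x ∣ n
    · rw [if_pos h]
      refine Finset.prod_congr rfl fun j _ => ?_
      rw [if_pos ((hdvd x hx n).1 h j)]
    · rw [if_neg h]
      have h2 : ∃ j : J, ¬ (∏ p ∈ x j, p) ∣ n := by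
        by_contra h3
        push Not at h3
        exact h ((hdvd x hx n).2 h3)
      obtain ⟨j, hj⟩ := h2
      exact Finset.prod_eq_zero (Finset.mem_univ j) (by rw [if_neg hj])
  have hnu : ∀ x ∈ PS, (∏ j : J, c j (x j) * ν (∏ p ∈ x j, p)) = Cx x * ν (Dx x) := by
    intro x hx
    rw [Finset.prod_mul_distrib, hDx]
    simp only
    rw [k3_nu ν hν _ (hUP x hx)]
    congr 1
    rw [hUdef]
    simp only
    rw [Finset.prod_biUnion (hdisj x hx)]
    exact Finset.prod_congr rfl fun j _ => k3_nu ν hν _ (hxP x hx j)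
  -- expansion of both products
  have hexp : ∀ n : ℕ, ∏ j ∈ J, (∑ S ∈ F j, if (∏ p ∈ S, p) ∣ n then c j S else 0) =
      ∑ x ∈ PS, if Dx x ∣ n then Cx x else 0 := by
    intro n
    rw [← Finset.prod_coe_sort, Finset.prod_univ_sum]
    exact Finset.sum_congr rfl fun x hx => hprodif x hx n
  have hexp2 : ∏ j ∈ J, ∑ S ∈ F j, c j S * ν (∏ p ∈ S, p) = ∑ x ∈ PS, Cx x * ν (Dx x) := by
    rw [← Finset.prod_coe_sort, Finset.prod_univ_sum]
    exact Finset.sum_congr rfl fun x hx => hnu x hx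
  have hlhs : ∑ i ∈ I, w i * ∏ j ∈ J, (∑ S ∈ F j, if (∏ p ∈ S, p) ∣ a i then c j S else 0) -
      X * ∏ j ∈ J, ∑ S ∈ F j, c j S * ν (∏ p ∈ S, p) =
      ∑ x ∈ PS, Cx x * (∑ i ∈ I.filter (fun i => Dx x ∣ a i), w i - ν (Dx x) * X) := by
    rw [hexp2]
    have h1 : ∑ i ∈ I, w i * ∏ j ∈ J, (∑ S ∈ F j, if (∏ p ∈ S, p) ∣ a i then c j S else 0) =
        ∑ x ∈ PS, Cx x * ∑ i ∈ I.filter (fun i => Dx x ∣ a i), w i := by
      rw [Finset.sum_congr rfl fun i _ => by rw [hexp (a i), Finset.mul_sum], Finset.sum_comm]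
      refine Finset.sum_congr rfl fun x _ => ?_
      rw [Finset.sum_filter, Finset.mul_sum]
      refine Finset.sum_congr rfl fun i _ => ?_
      split_ifs <;> ring
    rw [h1, Finset.mul_sum, ← Finset.sum_sub_distrib]
    exact Finset.sum_congr rfl fun x _ => by ring
  rw [hlhs]
  have hCle : ∀ x, |Cx x| ≤ 1 := by
    intro x
    rw [hCx]
    simp only
    rw [Finset.abs_prod]
    exact Finset.prod_le_one (fun j _ => abs_nonneg _) (fun j _ => hc _ _)
  have hRem0 : ∀ d, 0 ≤ Rem I w a X ν d := fun d => abs_nonneg _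
  have h1 : |∑ x ∈ PS, Cx x * (∑ i ∈ I.filter (fun i => Dx x ∣ a i), w i - ν (Dx x) * X)| ≤
      ∑ x ∈ PS, Rem I w a X ν (Dx x) := by
    refine (Finset.abs_sum_le_sum_abs _ _).trans (Finset.sum_le_sum fun x _ => ?_)
    rw [abs_mul]
    exact mul_le_of_le_one_left (abs_nonneg _) (hCle x)
  refine h1.trans ?_
  -- injectivity
  have hinj : ∀ x ∈ PS, ∀ y ∈ PS, Dx x = Dx y → x = y := by
    intro x hx y hy hxy
    have hsub : ∀ x ∈ PS, ∀ y ∈ PS, Dx x = Dx y → ∀ j : J, ∀ p ∈ x j, p ∈ y j := by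
      intro x hx y hy hxy j p hp
      have hpp := hxP x hx j p hp
      have h2 : p ∈ U x := (hUmem x p).2 ⟨j, hp⟩
      have h3 : p ∣ Dx x := (h03_mem _ (hUP x hx) p hpp).2 h2
      rw [hxy] at h3
      have h4 : p ∈ U y := (h03_mem _ (hUP y hy) p hpp).1 h3
      obtain ⟨k, hk⟩ := (hUmem y p).1 h4
      by_cases hjk : j = k
      · rw [hjk]; exact hk
      · exfalso
        have h5 : (j : ℕ) ≠ k := fun h => hjk (Subtype.ext h)
        exact Finset.disjoint_left.1 (hdis j j.2 k k.2 h5) (hxB x hx j hp) (hxB y hy k hk)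
    funext j
    exact Finset.Subset.antisymm (hsub x hx y hy hxy j) (hsub y hy x hx hxy.symm j)
  rw [← Finset.sum_image (f := fun d => Rem I w a X ν d) (g := Dx)
    (fun x hx y hy h => hinj x hx y hy h)]
  refine Finset.sum_le_sum_of_subset_of_nonneg ?_ (fun d _ _ => hRem0 d)
  intro d hd
  obtain ⟨x, hx, rfl⟩ := Finset.mem_image.1 hd
  unfold Dset
  rw [Finset.mem_filter, Finset.mem_Icc]
  refine ⟨⟨?_, ?_⟩, h03_sqf _ (hUP x hx), ?_⟩
  · exact Finset.prod_pos fun p hp => (hUP x hx p hp).pos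
  · apply Nat.le_floor
    have h2 := hY (fun j => if h : j ∈ J then x ⟨j, h⟩ else ∅) (fun j hj => by
      simp only [hj, dite_true]
      exact hxF x hx ⟨j, hj⟩)
    refine le_trans (le_of_eq ?_) h2
    congr 1
    rw [hDprod x hx, ← Finset.prod_coe_sort J
      (fun j => ∏ p ∈ (if h : j ∈ J then x ⟨j, h⟩ else ∅), p)]
    refine Finset.prod_congr rfl fun j _ => ?_
    simp
  · intro p hp hpd
    have h2 := (h03_mem _ (hUP x hx) p hp).1 hpd
    obtain ⟨j, hj⟩ := (hUmem x p).1 h2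
    exact (hB j j.2 p (hxB x hx j hj)).2

theorem k3_prod (ν : ℕ → ℝ) (hν : Dens3 ν) (S : Finset ℕ) (hS : ∀ p ∈ S, p.Prime) :
    ν (∏ p ∈ S, p) = ∏ p ∈ S, ν p := by
  classical
  induction S using Finset.induction_on with
  | empty => simp [hν.one]
  | insert q S hq ih =>
    rw [Finset.prod_insert hq, Finset.prod_insert hq, hν.mul, ih fun p hp => hS p (mem_insert_of_mem hp)]
    refine Nat.Coprime.prod_right fun p hp => ?_
    exact (Nat.coprime_primes (hS q (mem_insert_self _ _)) (hS p (mem_insert_of_mem hp))).2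
      (fun e => hq (e ▸ hp))

theorem k3_le (ν : ℕ → ℝ) (hν : Dens3 ν) (p : ℕ) (hp : p.Prime) (h3 : 3 ≤ p) : ν p ≤ 3 / 4 := by
  by_cases h : p = 3
  · rw [h]; linarith [hν.three]
  · have h5 : 5 ≤ p := by
      by_contra h5
      have h4 : p = 4 := by omega
      rw [h4] at hp
      revert hp; norm_num
    refine (hν.le p hp h5).trans ?_
    have : (5 : ℝ) ≤ p := by exact_mod_cast h5
    rw [div_le_div_iff₀ (by linarith) (by norm_num)]
    linarith

noncomputable def k4_M (x : ℕ → ℝ) (K : ℕ) (B : Finset ℕ) : ℝ :=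
  ∑ S ∈ B.powerset.filter (fun S => S.card < K), (-1) ^ S.card * ∏ p ∈ S, x p

theorem k4_zero (x : ℕ → ℝ) (B : Finset ℕ) : k4_M x 0 B = 0 := by
  simp [k4_M]

theorem k4_insert (x : ℕ → ℝ) (K : ℕ) (B : Finset ℕ) (q : ℕ) (hq : q ∉ B) :
    k4_M x (K + 1) (insert q B) = k4_M x (K + 1) B - x q * k4_M x K B := by
  classical
  have key : ∀ K : ℕ, ∀ B : Finset ℕ, k4_M x K B =
      ∑ S ∈ B.powerset, if S.card < K then (-1) ^ S.card * ∏ p ∈ S, x p else 0 := by
    intro K B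
    rw [k4_M, Finset.sum_filter]
  rw [key, key, key, Finset.sum_powerset_insert hq, Finset.mul_sum, sub_eq_add_neg,
    ← Finset.sum_neg_distrib]
  congr 1
  refine Finset.sum_congr rfl fun S hS => ?_
  have hqS : q ∉ S := fun h => hq (Finset.mem_powerset.1 hS h)
  rw [Finset.card_insert_of_notMem hqS, Finset.prod_insert hqS]
  by_cases h : S.card < K
  · rw [if_pos h, if_pos (by omega)]
    ring
  · rw [if_neg h, if_neg (by omega)]
    ring

theorem k4_main (x : ℕ → ℝ) (B : Finset ℕ) (h0 : ∀ p ∈ B, 0 ≤ x p) (h1 : ∀ p ∈ B, x p ≤ 1) :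
    ∀ k : ℕ, ∏ p ∈ B, (1 - x p) ≤ k4_M x (2 * k + 1) B ∧ k4_M x (2 * k) B ≤ ∏ p ∈ B, (1 - x p) := by
  classical
  induction B using Finset.induction_on with
  | empty =>
    intro k
    constructor
    · simp [k4_M, Finset.filter_singleton]
    · by_cases hk : k = 0
      · subst hk; simp [k4_M]
      · have : (0 : ℕ) < 2 * k := by omega
        simp [k4_M, Finset.filter_singleton, this]
  | insert q B hq ih =>
    have ih' := ih (fun p hp => h0 p (mem_insert_of_mem hp)) (fun p hp => h1 p (mem_insert_of_mem hp))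
    have q0 := h0 q (mem_insert_self _ _)
    have q1 := h1 q (mem_insert_self _ _)
    have hV : 0 ≤ ∏ p ∈ B, (1 - x p) := Finset.prod_nonneg fun p hp => by
      have := h1 p (mem_insert_of_mem hp); linarith
    intro k
    rw [Finset.prod_insert hq]
    constructor
    · rw [k4_insert x (2 * k) B q hq]
      have a := (ih' k).1
      have b := mul_le_mul_of_nonneg_left (ih' k).2 q0
      linarith
    · rcases k with _ | k
      · rw [Nat.mul_zero, k4_zero]
        exact mul_nonneg (by linarith) hV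
      · have e : 2 * (k + 1) = (2 * k + 1) + 1 := by ring
        rw [e, k4_insert x (2 * k + 1) B q hq, ← e]
        have a := (ih' (k + 1)).2
        have b := mul_le_mul_of_nonneg_left (ih' k).1 q0
        linarith

theorem k4_block (ν : ℕ → ℝ) (hν : Dens3 ν) (B : Finset ℕ) (hB : ∀ p ∈ B, p.Prime ∧ 3 ≤ p) (k : ℕ) :
    ∏ p ∈ B, (1 - ν p) ≤
      ∑ S ∈ B.powerset.filter (fun S => S.card ≤ 2 * k), (-1) ^ S.card * ν (∏ p ∈ S, p) ∧
    ∑ S ∈ B.powerset.filter (fun S => S.card ≤ 2 * k), (-1) ^ S.card * ν (∏ p ∈ S, p) ≤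
      ∏ p ∈ B, (1 - ν p) + ∑ S ∈ B.powersetCard (2 * k + 1), ν (∏ p ∈ S, p) := by
  classical
  have hx0 : ∀ p ∈ B, 0 ≤ ν p := fun p _ => hν.nonneg p
  have hx1 : ∀ p ∈ B, ν p ≤ 1 := fun p hp =>
    (k3_le ν hν p (hB p hp).1 (hB p hp).2).trans (by norm_num)
  have hM : ∀ S ∈ B.powerset, ν (∏ p ∈ S, p) = ∏ p ∈ S, ν p := fun S hS =>
    k3_prod ν hν S fun p hp => (hB p (Finset.mem_powerset.1 hS hp)).1
  have e1 : ∑ S ∈ B.powerset.filter (fun S => S.card ≤ 2 * k), (-1) ^ S.card * ν (∏ p ∈ S, p) =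
      k4_M ν (2 * k + 1) B := by
    rw [k4_M]
    have : B.powerset.filter (fun S => S.card ≤ 2 * k) =
        B.powerset.filter (fun S => S.card < 2 * k + 1) := by
      refine Finset.filter_congr fun S _ => ?_
      omega
    rw [this]
    refine Finset.sum_congr rfl fun S hS => ?_
    rw [hM S (Finset.mem_filter.1 hS).1]
  have e2 : k4_M ν (2 * (k + 1)) B = k4_M ν (2 * k + 1) B -
      ∑ S ∈ B.powersetCard (2 * k + 1), ν (∏ p ∈ S, p) := by
    have hs : B.powerset.filter (fun S => S.card < 2 * (k + 1)) =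
        B.powerset.filter (fun S => S.card < 2 * k + 1) ∪ B.powersetCard (2 * k + 1) := by
      ext S
      simp only [Finset.mem_filter, Finset.mem_union, Finset.mem_powersetCard, Finset.mem_powerset]
      constructor
      · rintro ⟨a, b⟩
        by_cases h : S.card < 2 * k + 1
        · exact Or.inl ⟨a, h⟩
        · exact Or.inr ⟨a, by omega⟩
      · rintro (⟨a, b⟩ | ⟨a, b⟩)
        · exact ⟨a, by omega⟩
        · exact ⟨a, by omega⟩
    have hd : Disjoint (B.powerset.filter (fun S => S.card < 2 * k + 1)) (B.powersetCard (2 * k + 1)) := by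
      rw [Finset.disjoint_left]
      intro S h1 h2
      have a := (Finset.mem_filter.1 h1).2
      have b := (Finset.mem_powersetCard.1 h2).2
      omega
    rw [k4_M, hs, Finset.sum_union hd, k4_M, sub_eq_add_neg, ← Finset.sum_neg_distrib]
    congr 1
    refine Finset.sum_congr rfl fun S hS => ?_
    have hS' := Finset.mem_powersetCard.1 hS
    rw [hM S (Finset.mem_powerset.2 hS'.1), hS'.2, Odd.neg_one_pow ⟨k, rfl⟩]
    ring
  rw [e1]
  refine ⟨(k4_main ν B hx0 hx1 k).1, ?_⟩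
  have := (k4_main ν B hx0 hx1 (k + 1)).2
  rw [e2] at this
  linarith

theorem k5_pow (s x : ℝ) (hs : 0 ≤ s) (hx : 0 ≤ x) (m : ℕ) :
    s ^ (m + 1) + ((m : ℝ) + 1) * s ^ m * x ≤ (s + x) ^ (m + 1) := by
  induction m with
  | zero => simp
  | succ n ih =>
    have h := mul_le_mul_of_nonneg_left ih (add_nonneg hs hx)
    have e : (s + x) * (s + x) ^ (n + 1) = (s + x) ^ (n + 1 + 1) := by ring
    rw [e] at h
    refine le_trans ?_ h
    push_cast
    have h2 : 0 ≤ ((n : ℝ) + 1) * s ^ n * x ^ 2 := by positivity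
    have e3 : (s + x) * (s ^ (n + 1) + ((n : ℝ) + 1) * s ^ n * x) =
        s ^ (n + 1 + 1) + ((n : ℝ) + 1 + 1) * s ^ (n + 1) * x + ((n : ℝ) + 1) * s ^ n * x ^ 2 := by ring
    rw [e3]
    linarith

theorem k5_main (x : ℕ → ℝ) (B : Finset ℕ) (h0 : ∀ p ∈ B, 0 ≤ x p) :
    ∀ m : ℕ, ∑ S ∈ B.powersetCard m, ∏ p ∈ S, x p ≤ (∑ p ∈ B, x p) ^ m / m.factorial := by
  classical
  induction B using Finset.induction_on with
  | empty =>
    intro m
    rcases m with _ | m
    · simp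
    · rw [Finset.powersetCard_eq_empty.2 (by simp)]
      simp
  | insert q B hq ih =>
    have ih' := ih (fun p hp => h0 p (mem_insert_of_mem hp))
    have q0 := h0 q (mem_insert_self _ _)
    have hs : 0 ≤ ∑ p ∈ B, x p := Finset.sum_nonneg fun p hp => h0 p (mem_insert_of_mem hp)
    intro m
    rcases m with _ | m
    · simp
    · rw [Finset.powersetCard_succ_insert hq, Finset.sum_union, Finset.sum_image]
      · have e : ∑ S ∈ B.powersetCard m, ∏ p ∈ insert q S, x p =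
            x q * ∑ S ∈ B.powersetCard m, ∏ p ∈ S, x p := by
          rw [Finset.mul_sum]
          refine Finset.sum_congr rfl fun S hS => ?_
          rw [Finset.prod_insert]
          exact fun h => hq ((Finset.mem_powersetCard.1 hS).1 h)
        rw [e, Finset.sum_insert hq]
        have a := ih' (m + 1)
        have b := mul_le_mul_of_nonneg_left (ih' m) q0
        have c := k5_pow (∑ p ∈ B, x p) (x q) hs q0 m
        have hf : (0 : ℝ) < ((m + 1).factorial : ℝ) := by exact_mod_cast Nat.factorial_pos _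
        have hf' : (0 : ℝ) < (m.factorial : ℝ) := by exact_mod_cast Nat.factorial_pos _
        refine (add_le_add a b).trans ?_
        rw [add_comm (x q)]
        refine le_trans (le_of_eq ?_) (div_le_div_of_nonneg_right c hf.le)
        rw [Nat.factorial_succ]
        push_cast
        have hm : (m : ℝ) + 1 ≠ 0 := by positivity
        field_simp
      · intro S hS T hT h
        have h1 : q ∉ S := fun h => hq ((Finset.mem_powersetCard.1 hS).1 h)
        have h2 : q ∉ T := fun h => hq ((Finset.mem_powersetCard.1 hT).1 h)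
        rw [← Finset.erase_insert h1, ← Finset.erase_insert h2, h]
      · rw [Finset.disjoint_left]
        intro S hS hT
        obtain ⟨T, _, rfl⟩ := Finset.mem_image.1 hT
        exact hq ((Finset.mem_powersetCard.1 hS).1 (mem_insert_self _ _))

theorem k5_esymm (ν : ℕ → ℝ) (hν : Dens3 ν) (B : Finset ℕ) (hB : ∀ p ∈ B, p.Prime) (m : ℕ) :
    ∑ S ∈ B.powersetCard m, ν (∏ p ∈ S, p) ≤ (∑ p ∈ B, ν p) ^ m / m.factorial := by
  refine le_trans (le_of_eq ?_) (k5_main ν B (fun p _ => hν.nonneg p) m)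
  refine Finset.sum_congr rfl fun S hS => ?_
  exact k3_prod ν hν S fun p hp => hB p ((Finset.mem_powersetCard.1 hS).1 hp)

theorem k7_expand {ι : Type*} (I : Finset ι) (w : ι → ℝ) (a : ι → ℕ) (X z Y : ℝ)
    (ν : ℕ → ℝ) (hν : Dens3 ν) (t : ℕ) (B : ℕ → Finset ℕ)
    (hB : ∀ j, ∀ p ∈ B j, p.Prime ∧ 3 ≤ p ∧ (p : ℝ) < z)
    (hdis : ∀ i j, i ≠ j → Disjoint (B i) (B j)) (k : ℕ → ℕ)
    (hY : ∀ (S : ℕ → Finset ℕ) (j₀ : ℕ), (∀ j, S j ⊆ B j) →
      (∀ j < t, (S j).card ≤ if j = j₀ then 2 * k j + 1 else 2 * k j) →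
      ((∏ j ∈ range t, ∏ p ∈ S j, p : ℕ) : ℝ) ≤ Y) (j₀ : ℕ) :
    |∑ i ∈ I, w i * ∏ j ∈ range t,
        (if j = j₀ then cb (2 * k j + 1) (B j) (a i) else sg (2 * k j) (B j) (a i)) -
      X * ∏ j ∈ range t, (if j = j₀ then ∑ S ∈ (B j).powersetCard (2 * k j + 1), ν (∏ p ∈ S, p)
        else ∑ S ∈ (B j).powerset.filter (fun S => S.card ≤ 2 * k j),
          (-1) ^ S.card * ν (∏ p ∈ S, p))| ≤
      ∑ d ∈ Dset z Y, Rem I w a X ν d := by
  have h := k3_expand I w a X z Y ν hν (range t) B (fun j _ => hB j) (fun i _ j _ => hdis i j)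
    (h07_F B k j₀) (fun j _ S hS => (h07_sub B k j₀ j S hS).1) (h07_c j₀) (h07_abs j₀) (by
      intro S hS
      have h1 := hY (fun j => if j < t then S j else ∅) j₀ (by
        intro j
        by_cases hj : j < t
        · rw [if_pos hj]
          exact (h07_sub B k j₀ j _ (hS j (Finset.mem_range.2 hj))).1
        · rw [if_neg hj]
          exact Finset.empty_subset _) (by
        intro j hj
        simp only [if_pos hj]
        exact (h07_sub B k j₀ j _ (hS j (Finset.mem_range.2 hj))).2)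
      refine le_trans (le_of_eq ?_) h1
      congr 1
      refine Finset.prod_congr rfl fun j hj => ?_
      simp only [if_pos (Finset.mem_range.1 hj)])
  simp_rw [h07_block, h07_mblock] at h
  exact h

theorem k7_lower {ι : Type*} (I : Finset ι) (w : ι → ℝ) (hw : ∀ i, 0 ≤ w i) (a : ι → ℕ) (X z Y : ℝ)
    (hX : 0 ≤ X) (ν : ℕ → ℝ) (hν : Dens3 ν) (t : ℕ) (B : ℕ → Finset ℕ)
    (hB : ∀ j, ∀ p ∈ B j, p.Prime ∧ 3 ≤ p ∧ (p : ℝ) < z)
    (hdis : ∀ i j, i ≠ j → Disjoint (B i) (B j)) (k : ℕ → ℕ)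
    (hY : ∀ (S : ℕ → Finset ℕ) (j₀ : ℕ), (∀ j, S j ⊆ B j) →
      (∀ j < t, (S j).card ≤ if j = j₀ then 2 * k j + 1 else 2 * k j) →
      ((∏ j ∈ range t, ∏ p ∈ S j, p : ℕ) : ℝ) ≤ Y)
    (hsum : ∑ j ∈ range t, (∑ S ∈ (B j).powersetCard (2 * k j + 1), ν (∏ p ∈ S, p)) /
      ∏ p ∈ B j, (1 - ν p) ≤ 1) :
    X * (∏ j ∈ range t, ∏ p ∈ B j, (1 - ν p)) *
      (1 - ∑ j ∈ range t, (∑ S ∈ (B j).powersetCard (2 * k j + 1), ν (∏ p ∈ S, p)) /
        ∏ p ∈ B j, (1 - ν p)) - (t + 1) * ∑ d ∈ Dset z Y, Rem I w a X ν d ≤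
      ∑ i ∈ I.filter (fun i => ∀ j < t, ∀ p ∈ B j, ¬ p ∣ a i), w i := by
  classical
  set E : ℝ := ∑ d ∈ Dset z Y, Rem I w a X ν d with hE
  set M : ℕ → ℝ := fun j => ∑ S ∈ (B j).powerset.filter (fun S => S.card ≤ 2 * k j),
    (-1) ^ S.card * ν (∏ p ∈ S, p) with hM
  set T : ℕ → ℝ := fun j => ∑ S ∈ (B j).powersetCard (2 * k j + 1), ν (∏ p ∈ S, p) with hT
  set V : ℕ → ℝ := fun j => ∏ p ∈ B j, (1 - ν p) with hV
  set s : ι → ℕ → ℝ := fun i j => sg (2 * k j) (B j) (a i) with hs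
  set u : ι → ℕ → ℝ := fun i j => cb (2 * k j + 1) (B j) (a i) with hu
  have hexp := k7_expand I w a X z Y ν hν t B hB hdis k hY
  -- the main product
  have h1 : X * ∏ j ∈ range t, M j - E ≤ ∑ i ∈ I, w i * ∏ j ∈ range t, s i j := by
    have h := (abs_le.1 (hexp t)).1
    have h2 : ∑ i ∈ I, w i * ∏ j ∈ range t,
        (if j = t then cb (2 * k j + 1) (B j) (a i) else sg (2 * k j) (B j) (a i)) =
        ∑ i ∈ I, w i * ∏ j ∈ range t, s i j := by
      refine Finset.sum_congr rfl fun i _ => ?_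
      congr 1
      refine Finset.prod_congr rfl fun j hj => ?_
      rw [if_neg (Finset.mem_range.1 hj).ne]
    have h3 : ∏ j ∈ range t, (if j = t then ∑ S ∈ (B j).powersetCard (2 * k j + 1), ν (∏ p ∈ S, p)
        else ∑ S ∈ (B j).powerset.filter (fun S => S.card ≤ 2 * k j),
          (-1) ^ S.card * ν (∏ p ∈ S, p)) = ∏ j ∈ range t, M j := by
      refine Finset.prod_congr rfl fun j hj => ?_
      rw [if_neg (Finset.mem_range.1 hj).ne]
    rw [h2, h3] at h
    linarith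
  -- the other products
  have h4 : ∀ j₀ ∈ range t, ∑ i ∈ I, w i * (u i j₀ * ∏ j ∈ (range t).erase j₀, s i j) ≤
      X * (T j₀ * ∏ j ∈ (range t).erase j₀, M j) + E := by
    intro j₀ hj₀
    have h := (abs_le.1 (hexp j₀)).2
    have h2 : ∑ i ∈ I, w i * ∏ j ∈ range t,
        (if j = j₀ then cb (2 * k j + 1) (B j) (a i) else sg (2 * k j) (B j) (a i)) =
        ∑ i ∈ I, w i * (u i j₀ * ∏ j ∈ (range t).erase j₀, s i j) := by
      refine Finset.sum_congr rfl fun i _ => ?_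
      congr 1
      rw [← Finset.mul_prod_erase _ _ hj₀, if_pos rfl]
      congr 1
      refine Finset.prod_congr rfl fun j hj => ?_
      rw [if_neg (Finset.mem_erase.1 hj).1]
    have h3 : ∏ j ∈ range t, (if j = j₀ then ∑ S ∈ (B j).powersetCard (2 * k j + 1), ν (∏ p ∈ S, p)
        else ∑ S ∈ (B j).powerset.filter (fun S => S.card ≤ 2 * k j),
          (-1) ^ S.card * ν (∏ p ∈ S, p)) = T j₀ * ∏ j ∈ (range t).erase j₀, M j := by
      rw [← Finset.mul_prod_erase _ _ hj₀, if_pos rfl]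
      congr 1
      refine Finset.prod_congr rfl fun j hj => ?_
      rw [if_neg (Finset.mem_erase.1 hj).1]
    rw [h2, h3] at h
    linarith
  -- pointwise inequality
  have h5 : ∑ i ∈ I, w i * (∏ j ∈ range t, s i j -
      ∑ j ∈ range t, u i j * ∏ l ∈ (range t).erase j, s i l) ≤
      ∑ i ∈ I.filter (fun i => ∀ j < t, ∀ p ∈ B j, ¬ p ∣ a i), w i := by
    rw [Finset.sum_filter]
    refine Finset.sum_le_sum fun i _ => ?_
    have h6 := bh_point t B (fun j p hp => (hB j p hp).1) k (a i)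
    calc w i * (∏ j ∈ range t, s i j - ∑ j ∈ range t, u i j * ∏ l ∈ (range t).erase j, s i l) ≤
        w i * (if ∀ j < t, ∀ p ∈ B j, ¬ p ∣ a i then (1 : ℝ) else 0) :=
          mul_le_mul_of_nonneg_left h6 (hw i)
      _ = _ := by split_ifs <;> simp
  have h7 : ∑ i ∈ I, w i * (∏ j ∈ range t, s i j -
      ∑ j ∈ range t, u i j * ∏ l ∈ (range t).erase j, s i l) =
      ∑ i ∈ I, w i * ∏ j ∈ range t, s i j -
        ∑ j ∈ range t, ∑ i ∈ I, w i * (u i j * ∏ l ∈ (range t).erase j, s i l) := by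
    rw [Finset.sum_comm, ← Finset.sum_sub_distrib]
    refine Finset.sum_congr rfl fun i _ => ?_
    rw [mul_sub, Finset.mul_sum]
  have h8 : ∑ j ∈ range t, ∑ i ∈ I, w i * (u i j * ∏ l ∈ (range t).erase j, s i l) ≤
      X * ∑ j ∈ range t, T j * ∏ l ∈ (range t).erase j, M l + t * E := by
    refine (Finset.sum_le_sum h4).trans (le_of_eq ?_)
    rw [Finset.sum_add_distrib, Finset.mul_sum, Finset.sum_const, Finset.card_range, nsmul_eq_mul]
  -- the main term
  have hVpos : ∀ j < t, 0 < V j := by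
    intro j _
    refine Finset.prod_pos fun p hp => ?_
    have := k3_le ν hν p (hB j p hp).1 (hB j p hp).2.1
    linarith
  have hbb := fun j => k4_block ν hν (B j) (fun p hp => ⟨(hB j p hp).1, (hB j p hp).2.1⟩) (k j)
  have h9 := bh_main t M V T hVpos (fun j _ => (hbb j).1)
    (fun j _ => Finset.sum_nonneg fun S _ => hν.nonneg _) hsum
  have h10 := mul_le_mul_of_nonneg_left h9 hX
  have h12 : X * ((∏ j ∈ range t, V j) * (1 - ∑ j ∈ range t, T j / V j)) =
      X * (∏ j ∈ range t, V j) * (1 - ∑ j ∈ range t, T j / V j) := by ring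
  rw [h12, mul_sub] at h10
  have h11 : X * (∏ j ∈ range t, V j) * (1 - ∑ j ∈ range t, T j / V j) - (t + 1) * E ≤
      ∑ i ∈ I.filter (fun i => ∀ j < t, ∀ p ∈ B j, ¬ p ∣ a i), w i := by
    rw [h7] at h5
    linarith
  exact h11

end Pool.Agent.Lib.MP_57ec86_nt
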