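import Pool.Agent.Lib.MP_d9bc60_nt.AQ.QMert
import Pool.Agent.Lib.MP_d9bc60_nt.AQ.QLow
import Pool.Agent.Lib.MP_57ec86_nt.K1

/-! Mertens sums for the densities of dimension 3. -/

set_option autoImplicit false

namespace Pool.Agent.Lib.MP_57ec86_nt

open Finset Pool.Agent.Lib.MP_d9bc60_nt.UV Pool.Agent.Lib.MP_d9bc60_nt.AP

theorem m3_nu_le (ν : ℕ → ℝ) (hν : Dens3 ν) (p : ℕ) (hp : p.Prime) (h7 : (7 : ℝ) ≤ p) :
    ν p ≤ 3 * (1 / (p : ℝ)) + 6 * (1 / (p : ℝ) ^ 2) ∧ ν p ^ 2 ≤ 18 * (1 / (p : ℝ) ^ 2) ∧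
      ν p ≤ 1 / 2 := by
  have h5' : 5 ≤ p := by
    have : 7 ≤ p := by exact_mod_cast h7
    omega
  have h1 := hν.le p hp h5'
  have h0 := hν.nonneg p
  have hp0 : (0 : ℝ) < (p : ℝ) - 1 := by linarith only [h7]
  have hpp : (0 : ℝ) < p := by linarith only [h7]
  refine ⟨h1.trans ?_, ?_, h1.trans ?_⟩
  · have : 3 * (1 / (p : ℝ)) + 6 * (1 / (p : ℝ) ^ 2) = (3 * p + 6) / (p : ℝ) ^ 2 := by
      field_simp
    rw [this, div_le_div_iff₀ hp0 (by positivity)]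
    nlinarith only [h7]
  · have h2 : ν p ^ 2 ≤ (3 / ((p : ℝ) - 1)) ^ 2 := pow_le_pow_left₀ h0 h1 2
    refine h2.trans ?_
    rw [div_pow, mul_one_div, div_le_div_iff₀ (by positivity) (by positivity)]
    nlinarith only [h7]
  · rw [div_le_div_iff₀ hp0 (by norm_num)]
    linarith only [h7]

theorem m3_sum (ε : ℝ) (hε : 0 < ε) : ∃ u₀ : ℝ, 7 ≤ u₀ ∧ ∀ (ν : ℕ → ℝ), Dens3 ν → ∀ u v : ℝ,
    u₀ ≤ u → u ≤ v → ∑ p ∈ prs u v, ν p ≤ 3 * Real.log (Real.log v / Real.log u) + ε := by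
  obtain ⟨u₁, h1, hm⟩ := mertens (ε / 6) (by positivity)
  refine ⟨max 7 (max u₁ (24 / ε)), le_max_left _ _, fun ν hν u v hu huv => ?_⟩
  have hu5 : 7 ≤ u := (le_max_left _ _).trans hu
  have hu1 : u₁ ≤ u := (le_max_left _ _).trans ((le_max_right _ _).trans hu)
  have hu2 : 24 / ε ≤ u := (le_max_right _ _).trans ((le_max_right _ _).trans hu)
  have hm1 := (abs_le.1 (hm u v hu1 huv)).2
  have hsq := h10_sq u v (by linarith only [hu5])
  have hsum : ∑ p ∈ prs u v, ν p ≤ 3 * ∑ p ∈ prs u v, 1 / (p : ℝ) +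
      6 * ∑ p ∈ prs u v, 1 / (p : ℝ) ^ 2 := by
    rw [mul_sum, mul_sum, ← sum_add_distrib]
    refine sum_le_sum fun p hp => ?_
    rw [h10_mem] at hp
    exact (m3_nu_le ν hν p hp.2.1 (by linarith only [hp.2.2, hu5, hp])).1
  have h8 : 6 * (2 / u) ≤ ε / 2 := by
    have hu0 : 0 < u := by linarith only [hu5]
    rw [← mul_div_assoc, div_le_div_iff₀ hu0 (by norm_num)]
    rw [div_le_iff₀ hε] at hu2
    linarith only [hu2]
  linarith only [hm1, hsq, hsum, h8]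

theorem m3_prod_inv (ε : ℝ) (hε : 0 < ε) : ∃ u₀ : ℝ, 7 ≤ u₀ ∧ ∀ (ν : ℕ → ℝ), Dens3 ν →
    ∀ u v : ℝ, u₀ ≤ u → u ≤ v →
      1 ≤ (1 + ε) * (Real.log v / Real.log u) ^ 3 * ∏ p ∈ prs u v, (1 - ν p) := by
  have hδ : 0 < Real.log (1 + ε) := Real.log_pos (by linarith only [hε])
  obtain ⟨u₁, h1, hm⟩ := m3_sum (Real.log (1 + ε) / 2) (by positivity)
  refine ⟨max u₁ (72 / Real.log (1 + ε)), h1.trans (le_max_left _ _), fun ν hν u v hu huv => ?_⟩
  have hu1 : u₁ ≤ u := (le_max_left _ _).trans hu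
  have hu2 : 72 / Real.log (1 + ε) ≤ u := (le_max_right _ _).trans hu
  have hu5 : 7 ≤ u := h1.trans hu1
  have hlu : 0 < Real.log u := Real.log_pos (by linarith only [h1, hu1])
  have hlv : 0 < Real.log v := Real.log_pos (by linarith only [h1, huv, hu1])
  have hs := hm ν hν u v hu1 huv
  have hsq := h10_sq u v (by linarith only [h1, hu1])
  have h8 : 18 * (2 / u) ≤ Real.log (1 + ε) / 2 := by
    have hu0 : 0 < u := by linarith only [h1, hu1]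
    rw [← mul_div_assoc, div_le_div_iff₀ hu0 (by norm_num)]
    rw [div_le_iff₀ hδ] at hu2
    linarith only [hu2]
  have hs2 : ∑ p ∈ prs u v, ν p ^ 2 ≤ 18 * ∑ p ∈ prs u v, 1 / (p : ℝ) ^ 2 := by
    rw [mul_sum]
    refine sum_le_sum fun p hp => ?_
    rw [h10_mem] at hp
    exact (m3_nu_le ν hν p hp.2.1 (by linarith only [hp.2.2, h1, hu1, hp])).2.1
  have hprod : Real.exp (-(∑ p ∈ prs u v, (ν p + ν p ^ 2))) ≤ ∏ p ∈ prs u v, (1 - ν p) := by
    rw [← sum_neg_distrib, Real.exp_sum]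
    refine prod_le_prod (fun _ _ => (Real.exp_pos _).le) fun p hp => ?_
    rw [h10_mem] at hp
    exact h10_exp (ν p) (hν.nonneg p)
      (m3_nu_le ν hν p hp.2.1 (by linarith only [hp.2.2, h1, hu1, hp])).2.2
  have hle : -(3 * Real.log (Real.log v / Real.log u) + Real.log (1 + ε)) ≤
      -(∑ p ∈ prs u v, (ν p + ν p ^ 2)) := by
    rw [sum_add_distrib]
    linarith only [hs, hsq, h8, hs2]
  have hfin : Real.exp (-(3 * Real.log (Real.log v / Real.log u) + Real.log (1 + ε))) ≤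
      ∏ p ∈ prs u v, (1 - ν p) := (Real.exp_le_exp.2 hle).trans hprod
  have hX : 0 < Real.log v / Real.log u := by positivity
  have hval : (1 + ε) * (Real.log v / Real.log u) ^ 3 =
      Real.exp (3 * Real.log (Real.log v / Real.log u) + Real.log (1 + ε)) := by
    rw [Real.exp_add, Real.exp_log (by linarith only [hε]), mul_comm (3 : ℝ), Real.exp_mul, Real.exp_log hX]
    norm_cast
    ring
  rw [hval]
  calc (1 : ℝ) = Real.exp (3 * Real.log (Real.log v / Real.log u) + Real.log (1 + ε)) *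
      Real.exp (-(3 * Real.log (Real.log v / Real.log u) + Real.log (1 + ε))) := by
        rw [← Real.exp_add, add_neg_cancel, Real.exp_zero]
    _ ≤ _ := mul_le_mul_of_nonneg_left hfin (Real.exp_pos _).le

theorem m3_VV_ratio (ε : ℝ) (hε : 0 < ε) : ∃ u₀ : ℝ, 7 ≤ u₀ ∧ ∀ (ν : ℕ → ℝ), Dens3 ν → ∀ u v : ℝ,
    u₀ ≤ u → u ≤ v → VV ν u ≤ (1 + ε) * (Real.log v / Real.log u) ^ 3 * VV ν v := by
  obtain ⟨u₁, h1, hm⟩ := m3_prod_inv ε hε
  refine ⟨u₁, h1, fun ν hν u v hu huv => ?_⟩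
  have hmain := hm ν hν u v hu huv
  have hsplit : VV ν v = VV ν u * ∏ p ∈ prs u v, (1 - ν p) :=
    h14_VV_split ν (by linarith only [h1, hu]) huv
  have hVV : 0 ≤ VV ν u := by
    unfold VV
    refine prod_nonneg fun p hp => ?_
    simp only [mem_filter, mem_range] at hp
    have := k3_le ν hν p hp.2.1 hp.2.2
    linarith only [this]
  rw [hsplit]
  calc VV ν u = VV ν u * 1 := (mul_one _).symm
    _ ≤ VV ν u * ((1 + ε) * (Real.log v / Real.log u) ^ 3 * ∏ p ∈ prs u v, (1 - ν p)) :=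
      mul_le_mul_of_nonneg_left hmain hVV
    _ = _ := by ring

theorem m3_pow_le (ν : ℕ → ℝ) (hν : Dens3 ν) (u : ℝ) : (1 / 4 : ℝ) ^ ⌈u⌉₊ ≤ VV ν u := by
  unfold VV
  have h1 : ∏ p ∈ (range ⌈u⌉₊).filter (fun p => p.Prime ∧ 3 ≤ p), (1 / 4 : ℝ) ≤
      ∏ p ∈ (range ⌈u⌉₊).filter (fun p => p.Prime ∧ 3 ≤ p), (1 - ν p) := by
    refine Finset.prod_le_prod (fun _ _ => by norm_num) ?_
    intro p hp
    rw [Finset.mem_filter] at hp
    have h2 := k3_le ν hν p hp.2.1 hp.2.2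
    linarith
  refine le_trans ?_ h1
  rw [Finset.prod_const]
  refine pow_le_pow_of_le_one (by norm_num) (by norm_num) ?_
  refine (Finset.card_filter_le _ _).trans ?_
  rw [Finset.card_range]

/-- Lower bound for the main product. -/
theorem m3_VV_ge : ∃ (c u₀ : ℝ), 0 < c ∧ 7 ≤ u₀ ∧ ∀ ν : ℕ → ℝ, Dens3 ν → ∀ z : ℝ, u₀ ≤ z →
    c / Real.log z ^ 3 ≤ VV ν z := by
  obtain ⟨u₀, hu, h⟩ := m3_VV_ratio 1 one_pos
  have hlu : 0 < Real.log u₀ := Real.log_pos (by linarith only [hu])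
  refine ⟨(1 / 4 : ℝ) ^ ⌈u₀⌉₊ * Real.log u₀ ^ 3 / 2, u₀, by positivity, hu, ?_⟩
  intro ν hν z hz
  have h1 := h ν hν u₀ z le_rfl hz
  have h2 := m3_pow_le ν hν u₀
  have hlz : 0 < Real.log z := Real.log_pos (by linarith only [hu, hz])
  have h3 : (1 / 4 : ℝ) ^ ⌈u₀⌉₊ ≤ 2 * (Real.log z / Real.log u₀) ^ 3 * VV ν z := by
    refine h2.trans (h1.trans (le_of_eq ?_))
    norm_num
  rw [div_le_iff₀ (by positivity)]
  have h4 : 2 * (Real.log z / Real.log u₀) ^ 3 * VV ν z =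
      2 * (VV ν z * Real.log z ^ 3) / Real.log u₀ ^ 3 := by
    rw [div_pow]
    ring
  rw [h4, le_div_iff₀ (by positivity)] at h3
  linarith only [h3]

end Pool.Agent.Lib.MP_57ec86_nt
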