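import Pool.Agent.Lib.MP_57ec86_nt.K2

/-! The lower bound sieve of dimension 3 (Brun-Hooley). -/

set_option autoImplicit false

namespace Pool.Agent.Lib.MP_57ec86_nt

open Finset Pool.Agent.Lib.MP_d9bc60_nt.UV Pool.Agent.Lib.MP_d9bc60_nt.AP

/-- the term of the block `j`, with `k_j = max 3 (j+1)` -/
noncomputable def k8f (k : ℕ) : ℝ := 8.04 * (2.081 : ℝ) ^ (2 * k + 1) / (2 * k + 1).factorial

theorem k8f_succ (k : ℕ) (hk : 3 ≤ k) : k8f (k + 1) ≤ 1 / 16 * k8f k := by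
  unfold k8f
  have e1 : 2 * (k + 1) + 1 = (2 * k + 2) + 1 := by ring
  have e2 : 2 * k + 2 = (2 * k + 1) + 1 := by ring
  rw [e1, Nat.factorial_succ, e2, Nat.factorial_succ, pow_succ, pow_succ]
  have hf : (0 : ℝ) < ((2 * k + 1).factorial : ℝ) := by exact_mod_cast Nat.factorial_pos _
  have hp : (0 : ℝ) < (2.081 : ℝ) ^ (2 * k + 1) := by positivity
  have hj : (3 : ℝ) ≤ (k : ℝ) := by exact_mod_cast hk
  push_cast
  rw [div_le_iff₀ (by positivity)]
  have : 1 / 16 * (8.04 * (2.081 : ℝ) ^ (2 * k + 1) / ((2 * k + 1).factorial : ℝ)) *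
      ((2 * (k : ℝ) + 1 + 1 + 1) * ((2 * (k : ℝ) + 1 + 1) * ((2 * k + 1).factorial : ℝ))) =
      1 / 16 * (8.04 * (2.081 : ℝ) ^ (2 * k + 1)) * ((2 * (k : ℝ) + 1 + 1 + 1) * (2 * (k : ℝ) + 1 + 1)) := by
    field_simp
  rw [this]
  have h2 : (72 : ℝ) ≤ (2 * (k : ℝ) + 1 + 1 + 1) * (2 * (k : ℝ) + 1 + 1) := by nlinarith
  nlinarith [mul_le_mul_of_nonneg_left h2 hp.le]

theorem k8f_three : k8f 3 ≤ 0.27 := by
  unfold k8f
  norm_num [Nat.factorial]

theorem k8f_four : k8f 4 ≤ 0.0163 := by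
  unfold k8f
  norm_num [Nat.factorial]

theorem k8f_geo (m : ℕ) : k8f (m + 4) ≤ 0.0163 * (1 / 16) ^ m := by
  induction m with
  | zero => simpa using k8f_four
  | succ m ih =>
    have h := k8f_succ (m + 4) (by omega)
    have e : m + 1 + 4 = m + 4 + 1 := by ring
    rw [e, pow_succ]
    linarith

theorem k8_sum (t : ℕ) : ∑ j ∈ range t, k8f (max 3 (j + 1)) ≤ 0.83 := by
  have key : ∀ m : ℕ, ∑ j ∈ range (m + 3), k8f (max 3 (j + 1)) ≤ 0.8274 - 0.0174 * (1 / 16) ^ m := by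
    intro m
    induction m with
    | zero =>
      rw [Finset.sum_range_succ, Finset.sum_range_succ, Finset.sum_range_succ, Finset.sum_range_zero]
      have h := k8f_three
      norm_num
      linarith
    | succ m ih =>
      have e : m + 1 + 3 = (m + 3) + 1 := by ring
      rw [e, Finset.sum_range_succ]
      have e2 : max 3 (m + 3 + 1) = m + 4 := by omega
      rw [e2, pow_succ]
      have h := k8f_geo m
      have hp : (0 : ℝ) < (1 / 16) ^ m := by positivity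
      linarith
  have hpos : ∀ j, 0 ≤ k8f j := fun j => by unfold k8f; positivity
  have h1 : ∑ j ∈ range t, k8f (max 3 (j + 1)) ≤ ∑ j ∈ range (t + 3), k8f (max 3 (j + 1)) :=
    Finset.sum_le_sum_of_subset_of_nonneg (Finset.range_subset_range.2 (by omega)) fun _ _ _ => hpos _
  have h2 := key t
  have h3 : (0 : ℝ) ≤ 0.0174 * (1 / 16) ^ t := by positivity
  linarith

theorem k9_geom (T : ℕ) :
    ∑ j ∈ range T, (1 / 2 : ℝ) ^ j * (2 * ((max 3 (j + 1) : ℕ) : ℝ)) ≤ 13 - 4 * ((T : ℝ) + 2) * (1 / 2) ^ T := by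
  rcases Nat.lt_or_ge T 2 with h | h
  · interval_cases T
    · norm_num
    · norm_num
  · induction T, h using Nat.le_induction with
    | base =>
      rw [Finset.sum_range_succ, Finset.sum_range_succ, Finset.sum_range_zero]
      norm_num
    | succ T hT ih =>
      have e : max 3 (T + 1) = T + 1 := by omega
      rw [Finset.sum_range_succ, e, pow_succ]
      have e3 : ((T + 1 : ℕ) : ℝ) = (T : ℝ) + 1 := by push_cast; ring
      rw [e3]
      have h2 : (0 : ℝ) < (1 / 2) ^ T := by positivity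
      linarith

theorem m3_VV_nonneg {ν : ℕ → ℝ} (hν : Dens3 ν) (z : ℝ) : 0 ≤ VV ν z := by
  classical
  unfold VV
  apply Finset.prod_nonneg
  intro p hp
  rw [Finset.mem_filter] at hp
  linarith [k3_le ν hν p hp.2.1 hp.2.2]

theorem k9_chain (Z : ℝ) (hZ : 5 ≤ Z) : ∃ D₀ : ℝ, 2 ≤ D₀ ∧ ∀ D : ℝ, D₀ ≤ D → ∃ T : ℕ, 1 ≤ T ∧
    Z ≤ (D ^ (2 / 29 : ℝ)) ^ ((1 / 2 : ℝ) ^ T) ∧ (D ^ (2 / 29 : ℝ)) ^ ((1 / 2 : ℝ) ^ T) < Z ^ 2 ∧
    (T : ℝ) + 2 ≤ Real.log D := by
  have hZ0 : 0 < Z := by linarith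
  have hlZ : 1 < Real.log Z := by
    have h1 := Real.exp_one_lt_d9
    rw [Real.lt_log_iff_exp_lt hZ0]
    linarith
  refine ⟨max (Real.exp (35 * Real.log Z)) (Real.exp 8), ?_, ?_⟩
  · refine le_trans ?_ (le_max_right _ _)
    have h1 := Real.add_one_le_exp (8 : ℝ)
    linarith
  · intro D hD
    have hD1 : Real.exp (35 * Real.log Z) ≤ D := (le_max_left _ _).trans hD
    have hD2 : Real.exp 8 ≤ D := (le_max_right _ _).trans hD
    have hD0 : 0 < D := lt_of_lt_of_le (Real.exp_pos _) hD2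
    have hlD1 : 35 * Real.log Z ≤ Real.log D := (Real.le_log_iff_exp_le hD0).2 hD1
    have hlD2 : 8 ≤ Real.log D := (Real.le_log_iff_exp_le hD0).2 hD2
    set l : ℝ := 2 / 29 * Real.log D with hl
    have hl2 : 2 * Real.log Z ≤ l := by rw [hl]; linarith
    have hlpos : 0 < l := by linarith
    -- the powers in terms of exp
    have hpow : ∀ t : ℕ, (D ^ (2 / 29 : ℝ)) ^ ((1 / 2 : ℝ) ^ t) = Real.exp (l * (1 / 2 : ℝ) ^ t) := by
      intro t
      rw [Real.rpow_def_of_pos hD0, ← Real.exp_mul, hl]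
      congr 1
      ring
    have hZ2 : Z ^ 2 = Real.exp (2 * Real.log Z) := by
      rw [two_mul, Real.exp_add, Real.exp_log hZ0, sq]
    have hZ1 : Z = Real.exp (Real.log Z) := (Real.exp_log hZ0).symm
    have hex : ∃ t : ℕ, l * (1 / 2 : ℝ) ^ t < 2 * Real.log Z := by
      obtain ⟨t, ht⟩ := exists_pow_lt_of_lt_one (show 0 < 2 * Real.log Z / l by positivity)
        (by norm_num : (1 / 2 : ℝ) < 1)
      refine ⟨t, ?_⟩
      rw [lt_div_iff₀ hlpos] at ht
      linarith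
    classical
    set T := Nat.find hex with hT
    have hTspec : l * (1 / 2 : ℝ) ^ T < 2 * Real.log Z := Nat.find_spec hex
    have hT1 : 1 ≤ T := by
      rcases Nat.eq_zero_or_pos T with h0 | h0
      · exfalso
        rw [h0, pow_zero, mul_one] at hTspec
        linarith
      · exact h0
    have hmin : 2 * Real.log Z ≤ l * (1 / 2 : ℝ) ^ (T - 1) := by
      have := Nat.find_min hex (m := T - 1) (by omega)
      exact not_lt.1 this
    have hhalf : (1 / 2 : ℝ) ^ (T - 1) = 2 * (1 / 2 : ℝ) ^ T := by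
      obtain ⟨s, hs⟩ : ∃ s, T = s + 1 := ⟨T - 1, by omega⟩
      rw [hs, Nat.add_sub_cancel, pow_succ]
      ring
    have hlow : Real.log Z ≤ l * (1 / 2 : ℝ) ^ T := by
      rw [hhalf] at hmin
      linarith
    refine ⟨T, hT1, ?_, ?_, ?_⟩
    · rw [hpow]
      calc Z = Real.exp (Real.log Z) := hZ1
        _ ≤ _ := Real.exp_le_exp.2 hlow
    · rw [hpow, hZ2]
      exact Real.exp_lt_exp.2 hTspec
    · -- `T + 1 ≤ 2^T ≤ l / log Z ≤ l`
      have h1 : (T : ℝ) + 1 ≤ 2 ^ T := by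
        have h : T + 1 ≤ 2 ^ T := Nat.lt_two_pow_self
        exact_mod_cast h
      have h2 : (2 : ℝ) ^ T ≤ l := by
        have h3 : (1 / 2 : ℝ) ^ T * 2 ^ T = 1 := by
          rw [← mul_pow]
          norm_num
        have h4 : (0 : ℝ) < 2 ^ T := by positivity
        have h5 : (2 : ℝ) ^ T * 1 ≤ 2 ^ T * (l * (1 / 2 : ℝ) ^ T) :=
          mul_le_mul_of_nonneg_left (hlZ.le.trans hlow) h4.le
        have h6 : (2 : ℝ) ^ T * (l * (1 / 2 : ℝ) ^ T) = l * ((1 / 2 : ℝ) ^ T * 2 ^ T) := by ring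
        rw [h6, h3] at h5
        linarith
      have h3 : l ≤ Real.log D - 1 := by
        rw [hl]
        linarith
      linarith


theorem k9_level (Z z : ℝ) (hZ : 5 ≤ Z) (hz : 1 ≤ z) (T : ℕ)
    (hT : z ^ ((1 / 2 : ℝ) ^ T) < Z ^ 2) (S : ℕ → Finset ℕ) (j₀ : ℕ)
    (h1 : ∀ j < T, ∀ p ∈ S j, (p : ℝ) ≤ z ^ ((1 / 2 : ℝ) ^ j))
    (h2 : ∀ j < T, (S j).card ≤ if j = j₀ then 2 * max 3 (j + 1) + 1 else 2 * max 3 (j + 1))
    (h3 : ∀ p ∈ S T, p.Prime ∧ (p : ℝ) < Z ^ 2) :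
    ((∏ j ∈ range (T + 1), ∏ p ∈ S j, p : ℕ) : ℝ) ≤ z ^ (14 : ℝ) * (4 : ℝ) ^ (Z ^ 2) := by
  have hz0 : 0 < z := by linarith
  have hZ2 : 0 ≤ Z ^ 2 := sq_nonneg Z
  rw [Finset.prod_range_succ, Nat.cast_mul]
  -- the last block
  have hlast : ((∏ p ∈ S T, p : ℕ) : ℝ) ≤ (4 : ℝ) ^ (Z ^ 2) := by
    have h4 : ∏ p ∈ S T, p ≤ primorial ⌊Z ^ 2⌋₊ := by
      unfold primorial
      apply Finset.prod_le_prod_of_subset_of_one_le'
      · intro p hp
        rw [Finset.mem_filter, Finset.mem_range]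
        refine ⟨?_, (h3 p hp).1⟩
        have := Nat.le_floor (h3 p hp).2.le
        omega
      · intro p hp _
        exact (Finset.mem_filter.1 hp).2.one_lt.le
    have h5 := h4.trans (primorial_le_four_pow ⌊Z ^ 2⌋₊)
    have h6 : ((∏ p ∈ S T, p : ℕ) : ℝ) ≤ ((4 ^ ⌊Z ^ 2⌋₊ : ℕ) : ℝ) := by exact_mod_cast h5
    refine h6.trans ?_
    push_cast
    rw [← Real.rpow_natCast]
    exact Real.rpow_le_rpow_of_exponent_le (by norm_num) (Nat.floor_le hZ2)
  have hfirst : ((∏ j ∈ range T, ∏ p ∈ S j, p : ℕ) : ℝ) ≤ z ^ (14 : ℝ) := by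
    rw [Nat.cast_prod]
    have h4 : ∀ j ∈ range T, ((∏ p ∈ S j, p : ℕ) : ℝ) ≤
        z ^ ((1 / 2 : ℝ) ^ j * (2 * ((max 3 (j + 1) : ℕ) : ℝ) + if j = j₀ then 1 else 0)) := by
      intro j hj
      have hjT := Finset.mem_range.1 hj
      have h5 : (1 : ℝ) ≤ z ^ ((1 / 2 : ℝ) ^ j) := Real.one_le_rpow hz (by positivity)
      rw [Nat.cast_prod]
      have h6 : ∏ p ∈ S j, (p : ℝ) ≤ ∏ _p ∈ S j, z ^ ((1 / 2 : ℝ) ^ j) :=
        Finset.prod_le_prod (fun p _ => Nat.cast_nonneg p) (h1 j hjT)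
      rw [Finset.prod_const] at h6
      refine h6.trans ?_
      rw [Real.rpow_mul hz0.le, ← Real.rpow_natCast]
      refine Real.rpow_le_rpow_of_exponent_le h5 ?_
      have h7 := h2 j hjT
      split_ifs at h7 ⊢ with h8
      · have h9 : ((S j).card : ℝ) ≤ ((2 * max 3 (j + 1) + 1 : ℕ) : ℝ) := Nat.cast_le.2 h7
        rw [Nat.cast_add, Nat.cast_mul, Nat.cast_one, Nat.cast_ofNat] at h9
        exact h9
      · have h9 : ((S j).card : ℝ) ≤ ((2 * max 3 (j + 1) : ℕ) : ℝ) := Nat.cast_le.2 h7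
        rw [Nat.cast_mul, Nat.cast_ofNat] at h9
        rw [add_zero]
        exact h9
    refine (Finset.prod_le_prod (fun j _ => Nat.cast_nonneg _) h4).trans ?_
    rw [← Real.rpow_sum_of_pos hz0]
    refine Real.rpow_le_rpow_of_exponent_le hz ?_
    have h10 : ∑ j ∈ range T, (1 / 2 : ℝ) ^ j * (2 * ((max 3 (j + 1) : ℕ) : ℝ) + if j = j₀ then 1 else 0) =
        ∑ j ∈ range T, (1 / 2 : ℝ) ^ j * (2 * ((max 3 (j + 1) : ℕ) : ℝ)) +
        ∑ j ∈ range T, (if j = j₀ then (1 / 2 : ℝ) ^ j else 0) := by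
      rw [← Finset.sum_add_distrib]
      refine Finset.sum_congr rfl fun j _ => ?_
      split_ifs <;> ring
    rw [h10]
    have h13 := k9_geom T
    have h11 : ∑ j ∈ range T, (if j = j₀ then (1 / 2 : ℝ) ^ j else 0) ≤ 1 := by
      rw [Finset.sum_ite_eq']
      split_ifs
      · exact pow_le_one₀ (by norm_num) (by norm_num)
      · norm_num
    have h12 : 0 ≤ 4 * ((T : ℝ) + 2) * (1 / 2) ^ T := by positivity
    linarith
  exact mul_le_mul hfirst hlast (Nat.cast_nonneg _) (by positivity)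


/-- The lower bound sieve. -/
theorem lower_sieve3 : ∃ D₀ : ℝ, 2 ≤ D₀ ∧ ∀ D : ℝ, D₀ ≤ D → ∀ {ι : Type} (I : Finset ι) (w : ι → ℝ)
    (a : ι → ℕ) (X : ℝ) (ν : ℕ → ℝ), (∀ i, 0 ≤ w i) → 0 ≤ X → Dens3 ν →
    0.17 * X * VV ν (D ^ (2 / 29 : ℝ)) -
      Real.log D * ∑ d ∈ Dset (D ^ (2 / 29 : ℝ)) D, Rem I w a X ν d ≤
      Ssum I w a (D ^ (2 / 29 : ℝ)) := by
  classical
  obtain ⟨u₁, hu₁, hsum⟩ := m3_sum 0.001 (by norm_num)
  obtain ⟨u₂, hu₂, hprod⟩ := m3_prod_inv 0.001 (by norm_num)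
  set Z : ℝ := max u₁ u₂ with hZdef
  have hZ7 : 7 ≤ Z := hu₁.trans (le_max_left _ _)
  have hZ : 5 ≤ Z := by linarith
  obtain ⟨D₁, hD₁, hchain⟩ := k9_chain Z hZ
  refine ⟨max D₁ (((4 : ℝ) ^ (Z ^ 2)) ^ (29 : ℝ)), hD₁.trans (le_max_left _ _), ?_⟩
  intro D hD ι I w a X ν hw hX hν
  obtain ⟨T, hT1, hTZ, hTZ2, hTlog⟩ := hchain D ((le_max_left _ _).trans hD)
  have hD2 : 2 ≤ D := hD₁.trans ((le_max_left _ _).trans hD)
  have hD0 : 0 < D := by linarith
  have h4 : (4 : ℝ) ^ (Z ^ 2) ≤ D ^ (1 / 29 : ℝ) := by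
    have h1 : ((4 : ℝ) ^ (Z ^ 2)) ^ (29 : ℝ) ≤ D := (le_max_right _ _).trans hD
    have h2 : (((4 : ℝ) ^ (Z ^ 2)) ^ (29 : ℝ)) ^ (1 / 29 : ℝ) ≤ D ^ (1 / 29 : ℝ) :=
      Real.rpow_le_rpow (by positivity) h1 (by norm_num)
    rw [← Real.rpow_mul (by positivity)] at h2
    norm_num at h2
    norm_num
    exact h2
  set z : ℝ := D ^ (2 / 29 : ℝ) with hz
  have hz1 : 1 ≤ z := Real.one_le_rpow (by linarith) (by norm_num)
  have hz0 : 0 < z := by linarith
  -- the dissection points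
  set zz : ℕ → ℝ := fun j => z ^ ((1 / 2 : ℝ) ^ j) with hzz
  have hzz0 : zz 0 = z := by simp [hzz]
  have hanti : ∀ i j, i ≤ j → zz j ≤ zz i := by
    intro i j hij
    apply Real.rpow_le_rpow_of_exponent_le hz1
    exact pow_le_pow_of_le_one (by norm_num) (by norm_num) hij
  have hzT : ∀ j ≤ T, Z ≤ zz j := fun j hj => hTZ.trans (hanti j T hj)
  have hzzle : ∀ j, zz j ≤ z := fun j => by
    have := hanti 0 j (Nat.zero_le j)
    rwa [hzz0] at this
  have hlog : ∀ j, Real.log (zz j) = 2 * Real.log (zz (j + 1)) := by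
    intro j
    simp only [hzz]
    rw [Real.log_rpow hz0, Real.log_rpow hz0, pow_succ]
    ring
  have hlogpos : ∀ j ≤ T, 0 < Real.log (zz j) := by
    intro j hj
    apply Real.log_pos
    linarith [hzT j hj]
  have hratio : ∀ j < T, Real.log (zz j) / Real.log (zz (j + 1)) = 2 := by
    intro j hj
    rw [hlog j, mul_div_assoc, div_self (hlogpos (j + 1) hj).ne', mul_one]
  -- the blocks
  set B : ℕ → Finset ℕ := fun j =>
    if j < T then prs (zz (j + 1)) (zz j) else if j = T then prs 3 (zz T) else ∅ with hBdef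
  have hBlt : ∀ j, j < T → B j = prs (zz (j + 1)) (zz j) := fun j hj => by
    simp only [hBdef, if_pos hj]
  have hBT : B T = prs 3 (zz T) := by
    simp only [hBdef, lt_irrefl, if_false, if_true]
  have hBgt : ∀ j, T < j → B j = ∅ := fun j hj => by
    simp only [hBdef]
    rw [if_neg (by omega), if_neg (by omega)]
  have hBmem : ∀ j, ∀ p ∈ B j, p.Prime ∧ 3 ≤ p ∧ (p : ℝ) < zz j ∧ (j < T → zz (j + 1) ≤ (p : ℝ)) := by
    intro j p hp
    rcases lt_trichotomy j T with h | h | h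
    · rw [hBlt j h, h14_mem_prs] at hp
      have h1 : (3 : ℝ) ≤ p := by linarith [hzT (j + 1) h, hp.2.1]
      exact ⟨hp.1, by exact_mod_cast h1, hp.2.2, fun _ => hp.2.1⟩
    · subst h
      rw [hBT, h14_mem_prs] at hp
      exact ⟨hp.1, by exact_mod_cast hp.2.1, hp.2.2, fun h => absurd h (lt_irrefl _)⟩
    · rw [hBgt j h] at hp
      simp at hp
  have hB : ∀ j, ∀ p ∈ B j, p.Prime ∧ 3 ≤ p ∧ (p : ℝ) < z := by
    intro j p hp
    obtain ⟨h1, h2, h3, -⟩ := hBmem j p hp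
    exact ⟨h1, h2, h3.trans_le (hzzle j)⟩
  have hdislt : ∀ i j, i < j → Disjoint (B i) (B j) := by
    intro i j hij
    rw [Finset.disjoint_left]
    intro p h1 h2
    rcases lt_or_ge i T with h | h
    · have h3 := (hBmem i p h1).2.2.2 h
      have h5 := (hBmem j p h2).2.2.1
      have h6 := hanti (i + 1) j hij
      linarith
    · rw [hBgt j (by omega)] at h2
      simp at h2
  have hdis : ∀ i j, i ≠ j → Disjoint (B i) (B j) := by
    intro i j hij
    rcases lt_or_gt_of_ne hij with h | h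
    · exact hdislt i j h
    · exact (hdislt j i h).symm
  set k : ℕ → ℕ := fun j => if j < T then max 3 (j + 1) else ⌈Z ^ 2⌉₊ with hk
  have hklt : ∀ j, j < T → k j = max 3 (j + 1) := fun j hj => by simp only [hk, if_pos hj]
  have hkT : k T = ⌈Z ^ 2⌉₊ := by simp only [hk, lt_irrefl, if_false]
  -- the level
  have hY : ∀ (S : ℕ → Finset ℕ) (j₀ : ℕ), (∀ j, S j ⊆ B j) →
      (∀ j < T + 1, (S j).card ≤ if j = j₀ then 2 * k j + 1 else 2 * k j) →
      ((∏ j ∈ range (T + 1), ∏ p ∈ S j, p : ℕ) : ℝ) ≤ D := by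
    intro S j₀ hS hc
    have h1 := k9_level Z z hZ hz1 T hTZ2 S j₀
      (fun j _ p hp => (hBmem j p (hS j hp)).2.2.1.le)
      (fun j hj => by
        have := hc j (by omega)
        rwa [hklt j hj] at this)
      (fun p hp => by
        have := hBmem T p (hS T hp)
        exact ⟨this.1, this.2.2.1.trans hTZ2⟩)
    refine h1.trans ?_
    have h2 : z ^ (14 : ℝ) = D ^ (28 / 29 : ℝ) := by
      rw [hz, ← Real.rpow_mul hD0.le]
      norm_num
    rw [h2]
    calc D ^ (28 / 29 : ℝ) * (4 : ℝ) ^ (Z ^ 2) ≤ D ^ (28 / 29 : ℝ) * D ^ (1 / 29 : ℝ) :=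
          mul_le_mul_of_nonneg_left h4 (by positivity)
      _ = D := by
          rw [← Real.rpow_add hD0]
          norm_num
  -- the sum over the blocks
  have hterm : ∀ j < T, (∑ S ∈ (B j).powersetCard (2 * k j + 1), ν (∏ p ∈ S, p)) /
      ∏ p ∈ B j, (1 - ν p) ≤ k8f (max 3 (j + 1)) := by
    intro j hj
    have hkj : k j = max 3 (j + 1) := hklt j hj
    rw [hkj]
    set q : ℕ := max 3 (j + 1) with hq
    have hu : Z ≤ zz (j + 1) := hzT (j + 1) hj
    have huv : zz (j + 1) ≤ zz j := hanti j (j + 1) (Nat.le_succ j)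
    have h1 := hsum ν hν (zz (j + 1)) (zz j) ((le_max_left _ _).trans hu) huv
    have h2 := hprod ν hν (zz (j + 1)) (zz j) ((le_max_right _ _).trans hu) huv
    rw [hratio j hj] at h1 h2
    rw [← hBlt j hj] at h1 h2
    have h3 : ∑ p ∈ B j, ν p ≤ 2.081 := by
      have := Real.log_two_lt_d9
      linarith
    have h3' : 0 ≤ ∑ p ∈ B j, ν p := Finset.sum_nonneg fun p _ => hν.nonneg p
    have h5 := k5_esymm ν hν (B j) (fun p hp => (hB j p hp).1) (2 * q + 1)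
    have h6 : (∑ p ∈ B j, ν p) ^ (2 * q + 1) ≤ (2.081 : ℝ) ^ (2 * q + 1) :=
      pow_le_pow_left₀ h3' h3 _
    have h7 : 0 < ∏ p ∈ B j, (1 - ν p) := by
      by_contra hneg
      push Not at hneg
      nlinarith
    rw [div_le_iff₀ h7]
    have h8 : (0 : ℝ) < (2 * q + 1).factorial := by exact_mod_cast Nat.factorial_pos _
    have h9 : ∑ S ∈ (B j).powersetCard (2 * q + 1), ν (∏ p ∈ S, p) ≤
        (2.081 : ℝ) ^ (2 * q + 1) / (2 * q + 1).factorial :=
      h5.trans (div_le_div_of_nonneg_right h6 h8.le)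
    have h10 : 0 ≤ (2.081 : ℝ) ^ (2 * q + 1) / (2 * q + 1).factorial := by positivity
    have h11 : 1 ≤ 8.04 * ∏ p ∈ B j, (1 - ν p) := by nlinarith
    calc ∑ S ∈ (B j).powersetCard (2 * q + 1), ν (∏ p ∈ S, p)
        ≤ (2.081 : ℝ) ^ (2 * q + 1) / (2 * q + 1).factorial * 1 := by rw [mul_one]; exact h9
      _ ≤ (2.081 : ℝ) ^ (2 * q + 1) / (2 * q + 1).factorial * (8.04 * ∏ p ∈ B j, (1 - ν p)) :=
          mul_le_mul_of_nonneg_left h11 h10
      _ = k8f q * ∏ p ∈ B j, (1 - ν p) := by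
          rw [k8f]
          ring
  have hlast : (B T).powersetCard (2 * k T + 1) = ∅ := by
    rw [Finset.powersetCard_eq_empty, hkT, hBT]
    have h1 : (prs 3 (zz T)).card ≤ ⌈zz T⌉₊ := by
      unfold prs
      refine (Finset.card_filter_le _ _).trans ?_
      rw [Finset.card_range]
    have h2 : ⌈zz T⌉₊ ≤ ⌈Z ^ 2⌉₊ := Nat.ceil_le_ceil hTZ2.le
    omega
  have hsumle : ∑ j ∈ range (T + 1), (∑ S ∈ (B j).powersetCard (2 * k j + 1), ν (∏ p ∈ S, p)) /
      ∏ p ∈ B j, (1 - ν p) ≤ 0.83 := by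
    rw [Finset.sum_range_succ, hlast, Finset.sum_empty, zero_div, add_zero]
    exact (Finset.sum_le_sum fun j hj => hterm j (Finset.mem_range.mp hj)).trans (k8_sum T)
  -- the main product
  have hmain : ∏ j ∈ range (T + 1), ∏ p ∈ B j, (1 - ν p) = VV ν z := by
    have h1 : ∀ m ≤ T, VV ν z = VV ν (zz m) * ∏ j ∈ range m, ∏ p ∈ B j, (1 - ν p) := by
      intro m
      induction m with
      | zero => intro _; rw [hzz0]; simp
      | succ m ih =>
        intro hm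
        rw [ih (by omega), Finset.prod_range_succ,
          h14_VV_split ν (by linarith [hzT (m + 1) hm]) (hanti m (m + 1) (Nat.le_succ m)),
          hBlt m hm]
        ring
    rw [h1 T le_rfl, Finset.prod_range_succ, hBT, h14_VV_prs]
    ring
  have hcover : ∀ p : ℕ, p.Prime → 3 ≤ p → (p : ℝ) < z → ∃ j < T + 1, p ∈ B j := by
    intro p hp hp3 hpz
    have h1 : ∀ m ≤ T, (p : ℝ) < zz m ∨ ∃ j < m, p ∈ B j := by
      intro m
      induction m with
      | zero => intro _; left; rwa [hzz0]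
      | succ m ih =>
        intro hm
        rcases ih (by omega) with h | ⟨j, hj, h⟩
        · rcases lt_or_ge (p : ℝ) (zz (m + 1)) with h2 | h2
          · exact Or.inl h2
          · refine Or.inr ⟨m, Nat.lt_succ_self m, ?_⟩
            rw [hBlt m hm, h14_mem_prs]
            exact ⟨hp, h2, h⟩
        · exact Or.inr ⟨j, by omega, h⟩
    rcases h1 T le_rfl with h | ⟨j, hj, h⟩
    · refine ⟨T, Nat.lt_succ_self T, ?_⟩
      rw [hBT, h14_mem_prs]
      exact ⟨hp, by exact_mod_cast hp3, h⟩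
    · exact ⟨j, by omega, h⟩
  have hlow := k7_lower I w hw a X z D hX ν hν (T + 1) B hB hdis k hY (hsumle.trans (by norm_num))
  rw [hmain] at hlow
  have hVV := m3_VV_nonneg hν z
  have hRem : 0 ≤ ∑ d ∈ Dset z D, Rem I w a X ν d := by
    apply Finset.sum_nonneg
    intro d _
    unfold Rem
    exact abs_nonneg _
  have hfil : ∑ i ∈ I.filter (fun i => ∀ j < T + 1, ∀ p ∈ B j, ¬ p ∣ a i), w i ≤ Ssum I w a z := by
    unfold Ssum
    apply Finset.sum_le_sum_of_subset_of_nonneg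
    · intro i hi
      rw [Finset.mem_filter] at hi ⊢
      refine ⟨hi.1, ?_⟩
      intro p hp hp3 hpz
      obtain ⟨j, hj, hpj⟩ := hcover p hp hp3 hpz
      exact hi.2 j hj p hpj
    · intro i _ _
      exact hw i
  have hXV : 0 ≤ X * VV ν z := mul_nonneg hX hVV
  have hA : 0.17 * X * VV ν z ≤ X * VV ν z *
      (1 - ∑ j ∈ range (T + 1), (∑ S ∈ (B j).powersetCard (2 * k j + 1), ν (∏ p ∈ S, p)) /
        ∏ p ∈ B j, (1 - ν p)) := by
    nlinarith
  have hC : (((T + 1 : ℕ) : ℝ) + 1) * ∑ d ∈ Dset z D, Rem I w a X ν d ≤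
      Real.log D * ∑ d ∈ Dset z D, Rem I w a X ν d := by
    apply mul_le_mul_of_nonneg_right _ hRem
    push_cast
    linarith
  calc 0.17 * X * VV ν z - Real.log D * ∑ d ∈ Dset z D, Rem I w a X ν d
      ≤ X * VV ν z *
        (1 - ∑ j ∈ range (T + 1), (∑ S ∈ (B j).powersetCard (2 * k j + 1), ν (∏ p ∈ S, p)) /
          ∏ p ∈ B j, (1 - ν p)) - (((T + 1 : ℕ) : ℝ) + 1) * ∑ d ∈ Dset z D, Rem I w a X ν d := by
        linarith
    _ ≤ ∑ i ∈ I.filter (fun i => ∀ j < T + 1, ∀ p ∈ B j, ¬ p ∣ a i), w i := hlow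
    _ ≤ Ssum I w a z := hfil


end Pool.Agent.Lib.MP_57ec86_nt
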