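import Pool.Agent.Lib.MP_d9bc60_nt.AQ.QRho
import Pool.Agent.Lib.MP_57ec86_nt.K1

/-! Counting roots, and the level of distribution, for a general integer valued polynomial function. -/

set_option autoImplicit false

namespace Pool.Agent.Lib.MP_57ec86_nt

open Finset Pool.Agent.Lib.MP_d9bc60_nt.UV Pool.Agent.Lib.MP_d9bc60_nt.AP

/-- `G` is compatible with congruences -/
def PolyLike (G : ℕ → ℤ) : Prop := ∀ d x y : ℕ, x ≡ y [MOD d] → ((d : ℤ) ∣ G x ↔ (d : ℤ) ∣ G y)

/-- the number of the reduced residue classes modulo `d` in which `G` is divisible by `d` -/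
noncomputable def rhoG (G : ℕ → ℤ) (d : ℕ) : ℕ :=
  ((range d).filter (fun x => x.Coprime d ∧ (d : ℤ) ∣ G x)).card

/-- `rhoG d / φ(d)` -/
noncomputable def nuG (G : ℕ → ℤ) (d : ℕ) : ℝ := (rhoG G d : ℝ) / d.totient

/-- the sequence -/
def aG (G : ℕ → ℤ) (n : ℕ) : ℕ := (G n).toNat

theorem rhoG_mul {G : ℕ → ℤ} (hG : PolyLike G) (d e : ℕ) (h : d.Coprime e) :
    rhoG G (d * e) = rhoG G d * rhoG G e := by
  classical
  rcases Nat.eq_zero_or_pos d with rfl | hd
  · simp [rhoG]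
  rcases Nat.eq_zero_or_pos e with rfl | he
  · simp [rhoG]
  rw [rhoG, rhoG, rhoG, ← Finset.card_product]
  have hcop : IsCoprime (d : ℤ) (e : ℤ) := Nat.isCoprime_iff_coprime.mpr h
  have key : ∀ x : ℕ, (x.Coprime (d * e) ∧ ((d * e : ℕ) : ℤ) ∣ G x) ↔
      ((x % d).Coprime d ∧ (d : ℤ) ∣ G (x % d)) ∧
      ((x % e).Coprime e ∧ (e : ℤ) ∣ G (x % e)) := by
    intro x
    rw [a01_cop (x % d) x d (Nat.mod_modEq x d), a01_cop (x % e) x e (Nat.mod_modEq x e),
      hG d (x % d) x (Nat.mod_modEq x d), hG e (x % e) x (Nat.mod_modEq x e),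
      Nat.coprime_mul_iff_right, Nat.cast_mul]
    constructor
    · rintro ⟨⟨h1, h2⟩, h3⟩
      exact ⟨⟨h1, (Dvd.intro _ rfl).trans h3⟩, ⟨h2, (Dvd.intro_left _ rfl).trans h3⟩⟩
    · rintro ⟨⟨h1, h2⟩, ⟨h3, h4⟩⟩
      exact ⟨⟨h1, h3⟩, hcop.mul_dvd h2 h4⟩
  refine Finset.card_nbij' (fun x => (x % d, x % e))
    (fun p => (Nat.chineseRemainder h p.1 p.2 : ℕ)) ?_ ?_ ?_ ?_
  · intro x hx
    simp only [Finset.coe_filter, Finset.mem_range, Set.mem_ofPred_eq] at hx
    simp only [Finset.coe_product, Finset.coe_filter, Finset.mem_range, Set.mem_prod,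
      Set.mem_ofPred_eq]
    have := (key x).mp hx.2
    exact ⟨⟨Nat.mod_lt _ hd, this.1⟩, ⟨Nat.mod_lt _ he, this.2⟩⟩
  · rintro ⟨u, v⟩ hx
    simp only [Finset.coe_product, Finset.coe_filter, Finset.mem_range, Set.mem_prod,
      Set.mem_ofPred_eq] at hx
    simp only [Finset.coe_filter, Finset.mem_range, Set.mem_ofPred_eq]
    have h1 := (Nat.chineseRemainder h u v).2.1
    have h2 := (Nat.chineseRemainder h u v).2.2
    refine ⟨Nat.chineseRemainder_lt_mul h u v hd.ne' he.ne', (key _).mpr ?_⟩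
    have h3 : (Nat.chineseRemainder h u v : ℕ) % d = u := by
      rw [Nat.ModEq] at h1
      rw [h1, Nat.mod_eq_of_lt hx.1.1]
    have h4 : (Nat.chineseRemainder h u v : ℕ) % e = v := by
      rw [Nat.ModEq] at h2
      rw [h2, Nat.mod_eq_of_lt hx.2.1]
    rw [h3, h4]
    exact ⟨hx.1.2, hx.2.2⟩
  · intro x hx
    simp only [Finset.coe_filter, Finset.mem_range, Set.mem_ofPred_eq] at hx
    have h1 := (Nat.chineseRemainder h (x % d) (x % e)).2.1
    have h2 := (Nat.chineseRemainder h (x % d) (x % e)).2.2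
    have h3 : (Nat.chineseRemainder h (x % d) (x % e) : ℕ) ≡ x [MOD d * e] :=
      (Nat.modEq_and_modEq_iff_modEq_mul h).mp
        ⟨h1.trans (Nat.mod_modEq x d), h2.trans (Nat.mod_modEq x e)⟩
    have h4 := Nat.chineseRemainder_lt_mul h (x % d) (x % e) hd.ne' he.ne'
    exact Nat.ModEq.eq_of_lt_of_lt h3 h4 hx.1
  · rintro ⟨u, v⟩ hx
    simp only [Finset.coe_product, Finset.coe_filter, Finset.mem_range, Set.mem_prod,
      Set.mem_ofPred_eq] at hx
    have h1 := (Nat.chineseRemainder h u v).2.1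
    have h2 := (Nat.chineseRemainder h u v).2.2
    rw [Nat.ModEq] at h1 h2
    simp only [Prod.mk.injEq]
    rw [h1, h2]
    exact ⟨Nat.mod_eq_of_lt hx.1.1, Nat.mod_eq_of_lt hx.2.1⟩


theorem rhoG_le {G : ℕ → ℤ} (hG : PolyLike G) (h4 : ∀ p : ℕ, p.Prime → rhoG G p ≤ 4) (d : ℕ) (hd : Squarefree d) :
    rhoG G d ≤ d.divisors.card ^ 2 := by
  induction d using Nat.recOnPosPrimePosCoprime with
  | prime_pow p n hp hn =>
    have h1 : n = 1 := by
      by_contra hne
      have h2 : 2 ≤ n := by omega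
      have h3 : p * p ∣ p ^ n := by rw [← pow_two]; exact pow_dvd_pow p h2
      exact hp.not_isUnit (hd p h3)
    subst h1
    rw [pow_one, Nat.Prime.divisors hp, Finset.card_pair hp.one_lt.ne]
    exact h4 p hp
  | zero => simp [rhoG]
  | one =>
    rw [rhoG]
    refine (Finset.card_filter_le _ _).trans ?_
    simp
  | coprime a c ha hc hac iha ihc =>
    rw [rhoG_mul hG a c hac, Nat.Coprime.card_divisors_mul hac, mul_pow]
    exact Nat.mul_le_mul (iha (hd.squarefree_of_dvd (Dvd.intro _ rfl)))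
      (ihc (hd.squarefree_of_dvd (Dvd.intro_left _ rfl)))

open Classical in
theorem k4_classes {G : ℕ → ℤ} (hG : PolyLike G) (P d : ℕ) (hd : 0 < d) :
    ∑ x ∈ (range d).filter (fun x => x.Coprime d ∧ (d : ℤ) ∣ G x),
      ∑ n ∈ (Icc 1 P).filter (fun n => n % d = x % d), vm n * kf P n =
    ∑ n ∈ Icc 1 P, if n.Coprime d ∧ (d : ℤ) ∣ G n then vm n * kf P n else 0 := by
  have h1 : ∀ x ∈ (range d).filter (fun x => x.Coprime d ∧ (d : ℤ) ∣ G x),
      ∑ n ∈ (Icc 1 P).filter (fun n => n % d = x % d), vm n * kf P n =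
      ∑ n ∈ Icc 1 P, if n % d = x then vm n * kf P n else 0 := by
    intro x hx
    rw [mem_filter, mem_range] at hx
    rw [sum_filter, Nat.mod_eq_of_lt hx.1]
  rw [sum_congr rfl h1, sum_comm]
  apply sum_congr rfl
  intro n _
  rw [sum_ite_eq]
  have e1 : (n % d ∈ (range d).filter (fun x => x.Coprime d ∧ (d : ℤ) ∣ G x)) ↔
      (n.Coprime d ∧ (d : ℤ) ∣ G n) := by
    rw [mem_filter, mem_range, g1_cop, hG d (n % d) n (Nat.mod_modEq n d)]
    exact ⟨fun h => h.2, fun h => ⟨Nat.mod_lt _ hd, h⟩⟩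
  by_cases hc : n.Coprime d ∧ (d : ℤ) ∣ G n
  · rw [if_pos hc, if_pos (e1.2 hc)]
  · rw [if_neg hc, if_neg (fun h => hc (e1.1 h))]

theorem k4_level {G : ℕ → ℤ} (hG : PolyLike G) (h4 : ∀ p : ℕ, p.Prime → rhoG G p ≤ 4) (P : ℕ) (y D : ℝ) (hP : 3 ≤ P) (hy : 1 ≤ y)
    (hpos : ∀ n ∈ Icc 1 P, 0 < G n) (Est : ℕ → ℝ)
    (hEst : ∀ d ∈ Icc 1 ⌊D⌋₊, ∀ a : ℕ, a.Coprime d → |EE P d a| ≤ Est d) :
    ∀ d ∈ Dset y D, Rem (Icc 1 P) (wq P y) (aG G) P (nuG G) d ≤
      (d.divisors.card : ℝ) ^ 2 * Est d + 8 * (Real.sqrt P + y + 1) * Real.log P ^ 3 := by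
  intro d hd
  classical
  rw [Dset, mem_filter] at hd
  obtain ⟨hdI, hsq, hpr⟩ := hd
  have hd1 : 1 ≤ d := (mem_Icc.1 hdI).1
  have hE0 : 0 ≤ Est d := (abs_nonneg _).trans (hEst d hdI 1 (Nat.coprime_one_left d))
  set R := (range d).filter (fun x => x.Coprime d ∧ (d : ℤ) ∣ G x) with hR
  have hRc : R.card = rhoG G d := rfl
  set A : ℝ := ∑ x ∈ R, ∑ n ∈ (Icc 1 P).filter (fun n => n % d = x % d), vm n * kf P n with hA
  have hA1 : A - nuG G d * P = ∑ x ∈ R, EE P d x := by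
    unfold EE
    rw [sum_sub_distrib, sum_const, hRc, nsmul_eq_mul, nuG]
    ring
  have hA2 : |A - nuG G d * P| ≤ (d.divisors.card : ℝ) ^ 2 * Est d := by
    rw [hA1]
    calc |∑ x ∈ R, EE P d x| ≤ ∑ x ∈ R, |EE P d x| := abs_sum_le_sum_abs _ _
      _ ≤ ∑ _x ∈ R, Est d := by
          apply sum_le_sum
          intro x hx
          exact hEst d hdI x (mem_filter.1 hx).2.1
      _ = (R.card : ℝ) * Est d := by rw [sum_const, nsmul_eq_mul]
      _ ≤ (d.divisors.card : ℝ) ^ 2 * Est d := by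
          apply mul_le_mul_of_nonneg_right _ hE0
          rw [hRc]
          exact_mod_cast rhoG_le hG h4 d hsq
  set F : ℕ → ℝ := fun n => if n.Coprime d ∧ (d : ℤ) ∣ G n then vm n * kf P n else 0
    with hF
  have hA3 : A = ∑ n ∈ Icc 1 P, F n := k4_classes hG P d hd1
  set S : ℝ := ∑ n ∈ (Icc 1 P).filter (fun n => d ∣ aG G n), wq P y n with hS
  have hS1 : S = ∑ n ∈ Icc 1 P, if d ∣ aG G n then wq P y n else 0 := sum_filter _ _
  have hnn : ∀ n, 0 ≤ vm n * kf P n := fun n => mul_nonneg (a03_vm_nonneg n) (a03_kf_nonneg P n)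
  -- termwise
  have hterm : ∀ n ∈ Icc 1 P, |(if d ∣ aG G n then wq P y n else 0) - F n| ≤
      if ¬ (n.Prime ∧ y < (n : ℝ)) then vm n * kf P n else 0 := by
    intro n hn
    have hpn := hpos n hn
    have hdv : d ∣ aG G n ↔ (d : ℤ) ∣ G n := by
      rw [aG, ← Int.natCast_dvd_natCast, Int.toNat_of_nonneg hpn.le]
    by_cases hc : n.Prime ∧ y < (n : ℝ)
    · rw [if_neg (not_not.2 hc)]
      have hcop : n.Coprime d := by
        rw [hc.1.coprime_iff_not_dvd]
        intro h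
        have := (hpr n hc.1 h).2
        linarith [hc.2]
      have hw : wq P y n = vm n * kf P n := by
        rw [wq, if_pos hc, vm, ArithmeticFunction.vonMangoldt_apply_prime hc.1]
      have hFn : F n = if d ∣ aG G n then vm n * kf P n else 0 := by
        simp only [hF]
        by_cases h : (d : ℤ) ∣ G n
        · rw [if_pos ⟨hcop, h⟩, if_pos (hdv.2 h)]
        · rw [if_neg (fun h' => h h'.2), if_neg (fun h' => h (hdv.1 h'))]
      rw [hFn, hw, sub_self, abs_zero]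
    · rw [if_pos hc]
      have hw : wq P y n = 0 := by rw [wq, if_neg hc]
      rw [hw, ite_self, zero_sub, abs_neg]
      simp only [hF]
      split_ifs
      · rw [abs_of_nonneg (hnn n)]
      · rw [abs_zero]
        exact hnn n
  have hSA : |S - A| ≤ (y + 2 * Real.sqrt P) * Real.log P ^ 2 := by
    rw [hS1, hA3, ← sum_sub_distrib]
    refine (abs_sum_le_sum_abs _ _).trans ((sum_le_sum hterm).trans ?_)
    rw [← sum_filter]
    exact a03_small P y hP hy
  have hL1 : 1 ≤ Real.log P := by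
    rw [Real.le_log_iff_exp_le (by positivity)]
    have h3 : (3 : ℝ) ≤ P := by exact_mod_cast hP
    have := Real.exp_one_lt_d9
    linarith
  have hfin : (y + 2 * Real.sqrt P) * Real.log P ^ 2 ≤
      8 * (Real.sqrt P + y + 1) * Real.log P ^ 3 := by
    have hs := Real.sqrt_nonneg (P : ℝ)
    have h2 : 0 ≤ Real.log P ^ 2 := sq_nonneg _
    have h3 : Real.log P ^ 2 ≤ Real.log P ^ 3 := by
      rw [pow_succ (Real.log P) 2]
      exact le_mul_of_one_le_right h2 hL1
    calc (y + 2 * Real.sqrt P) * Real.log P ^ 2 ≤ (y + 2 * Real.sqrt P) * Real.log P ^ 3 :=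
          mul_le_mul_of_nonneg_left h3 (by linarith)
      _ ≤ 8 * (Real.sqrt P + y + 1) * Real.log P ^ 3 :=
          mul_le_mul_of_nonneg_right (by linarith) (by linarith)
  have hRem : Rem (Icc 1 P) (wq P y) (aG G) P (nuG G) d = |S - nuG G d * P| := by
    rw [Rem]
  rw [hRem]
  have h9 : |S - nuG G d * P| ≤ |S - A| + |A - nuG G d * P| := by
    have : S - nuG G d * P = (S - A) + (A - nuG G d * P) := by ring
    rw [this]
    exact abs_add_le _ _
  linarith


end Pool.Agent.Lib.MP_57ec86_nt
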