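import Pool.Agent.Lib.MP_d9bc60_nt.AQ.QBV
import Pool.Agent.Lib.MP_57ec86_nt.K3
import Pool.Agent.Lib.MP_57ec86_nt.K4

/-! Primes `n ≤ P` for which `G n` has no small odd prime factor. -/

set_option autoImplicit false

namespace Pool.Agent.Lib.MP_57ec86_nt

open Finset Pool.Agent.Lib.MP_d9bc60_nt.UV Pool.Agent.Lib.MP_d9bc60_nt.AP

theorem k5_large : ∃ P₀ : ℕ, ∀ P : ℕ, P₀ ≤ P →
    24 * Real.log P ^ 16 ≤ (P : ℝ) ^ (1 / 400 : ℝ) := by
  have h1 := (isLittleO_log_rpow_rpow_atTop 16 (by norm_num : (0 : ℝ) < 1 / 400)).bound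
    (by norm_num : (0 : ℝ) < 1 / 24)
  have h2 := h1.and (Filter.eventually_ge_atTop (3 : ℝ))
  rw [Filter.eventually_atTop] at h2
  obtain ⟨x₀, hx₀⟩ := h2
  refine ⟨⌈x₀⌉₊, fun P hP => ?_⟩
  have hPx : x₀ ≤ P := (Nat.le_ceil x₀).trans (by exact_mod_cast hP)
  obtain ⟨h3, h4⟩ := hx₀ P hPx
  have hL : 0 ≤ Real.log P := Real.log_nonneg (by linarith only [h4])
  have e16 : Real.log P ^ (16 : ℝ) = Real.log P ^ 16 := by
    rw [← Real.rpow_natCast]
    norm_num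
  rw [e16, Real.norm_of_nonneg (by positivity), Real.norm_of_nonneg (by positivity)] at h3
  linarith only [h3]

theorem k5_rem_sum : ∃ P₀ : ℕ, ∀ P : ℕ, P₀ ≤ P → ∀ G : ℕ → ℤ, PolyLike G →
    (∀ p : ℕ, p.Prime → rhoG G p ≤ 4) → (∀ n ∈ Icc 1 P, 0 < G n) →
    ∑ d ∈ Dset ((P : ℝ) ^ (1791 / 4000 : ℝ)) ((P : ℝ) ^ (199 / 400 : ℝ)),
      (d.divisors.card : ℝ) ^ 3 *
        Rem (Icc 1 P) (wq P ((P : ℝ) ^ (1791 / 4000 : ℝ))) (aG G) P (nuG G) d ≤
      2 * (P : ℝ) / Real.log P ^ 5 := by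
  obtain ⟨P₁, hP₁⟩ := bv 5 5 (1 / 400) (by norm_num)
  obtain ⟨P₂, hP₂⟩ := k5_large
  refine ⟨max (max P₁ P₂) 8, fun P hP G hG h4G hpos => ?_⟩
  have hPP₁ : P₁ ≤ P := ((le_max_left _ _).trans (le_max_left _ _)).trans hP
  have hPP₂ : P₂ ≤ P := ((le_max_right _ _).trans (le_max_left _ _)).trans hP
  have hP8 : 8 ≤ P := (le_max_right _ _).trans hP
  have hP8R : (8 : ℝ) ≤ P := by exact_mod_cast hP8
  have hP0 : (0 : ℝ) < P := by linarith only [hP8R]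
  have hP1 : (1 : ℝ) ≤ P := by linarith only [hP8R]
  set D : ℝ := (P : ℝ) ^ (199 / 400 : ℝ) with hD
  set y : ℝ := (P : ℝ) ^ (1791 / 4000 : ℝ) with hy
  set L := Real.log P with hL
  have hL2 : 2 ≤ L := by
    have h1 : Real.log (8 : ℝ) ≤ L := Real.log_le_log (by norm_num) hP8R
    have h2 : Real.log (8 : ℝ) = 3 * Real.log 2 := by
      rw [show (8 : ℝ) = 2 ^ 3 by norm_num, Real.log_pow]
      norm_num
    have h3 := Real.log_two_gt_d9
    linarith only [h1, h2, h3]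
  have hD1 : 1 ≤ D := Real.one_le_rpow hP1 (by norm_num)
  have hy1 : 1 ≤ y := Real.one_le_rpow hP1 (by norm_num)
  have hDfl : (⌊D⌋₊ : ℝ) ≤ D := Nat.floor_le (by linarith only [hD1])
  obtain ⟨Est, hE0, hE1, hE2⟩ := hP₁ P hPP₁ ⌊D⌋₊ (by
    refine hDfl.trans (le_of_eq ?_)
    rw [hD]
    norm_num)
  have hlev := k4_level hG h4G P y D (by omega) hy1 hpos Est hE1
  have hsub : Dset y D ⊆ Icc 1 ⌊D⌋₊ := by
    classical
    unfold Dset
    exact Finset.filter_subset _ _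
  set E : ℝ := 8 * (Real.sqrt P + y + 1) * L ^ 3 with hE
  have hE0' : 0 ≤ E := by positivity
  have hy0 : 0 ≤ y := by linarith only [hy1]
  -- the sum
  have h1 : ∑ d ∈ Dset y D, (d.divisors.card : ℝ) ^ 3 *
      Rem (Icc 1 P) (wq P y) (aG G) P (nuG G) d ≤
      ∑ d ∈ Dset y D, ((d.divisors.card : ℝ) ^ 5 * Est d + E * (d.divisors.card : ℝ) ^ 3) := by
    refine Finset.sum_le_sum fun d hd => ?_
    have h2 := mul_le_mul_of_nonneg_left (hlev d hd)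
      (by positivity : (0 : ℝ) ≤ (d.divisors.card : ℝ) ^ 3)
    refine h2.trans (le_of_eq ?_)
    ring
  have h3 : ∑ d ∈ Dset y D, ((d.divisors.card : ℝ) ^ 5 * Est d + E * (d.divisors.card : ℝ) ^ 3) ≤
      ∑ d ∈ Icc 1 ⌊D⌋₊, ((d.divisors.card : ℝ) ^ 5 * Est d + E * (d.divisors.card : ℝ) ^ 3) := by
    refine Finset.sum_le_sum_of_subset_of_nonneg hsub fun d _ _ => ?_
    have := hE0 d
    positivity
  have h3' : ∑ d ∈ Icc 1 ⌊D⌋₊, ((d.divisors.card : ℝ) ^ 5 * Est d + E * (d.divisors.card : ℝ) ^ 3) =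
      ∑ d ∈ Icc 1 ⌊D⌋₊, (d.divisors.card : ℝ) ^ 5 * Est d +
      E * ∑ d ∈ Icc 1 ⌊D⌋₊, (d.divisors.card : ℝ) ^ 3 := by
    rw [Finset.sum_add_distrib, ← Finset.mul_sum]
  have h4 := tau_pow_sum 3 ⌊D⌋₊
  have h5 : (⌊D⌋₊ : ℝ) * (1 + Real.log ⌊D⌋₊) ^ (2 ^ 3) ≤ D * L ^ 8 := by
    have h6 : Real.log ⌊D⌋₊ ≤ L / 2 := by
      have h7 : 1 ≤ ⌊D⌋₊ := Nat.le_floor (by exact_mod_cast hD1)
      have h8 : (1 : ℝ) ≤ ⌊D⌋₊ := by exact_mod_cast h7
      have h9 : Real.log ⌊D⌋₊ ≤ Real.log D := Real.log_le_log (by linarith only [h8]) hDfl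
      rw [hD, Real.log_rpow hP0] at h9
      have : (199 / 400 : ℝ) * L ≤ L / 2 := by linarith only [hL2]
      linarith only [hL2, h9]
    have h10 : 0 ≤ 1 + Real.log ⌊D⌋₊ := by
      have := Real.log_natCast_nonneg ⌊D⌋₊
      linarith only [this]
    have h11 : 1 + Real.log ⌊D⌋₊ ≤ L := by linarith only [hL2, h6]
    norm_num only
    exact mul_le_mul hDfl (pow_le_pow_left₀ h10 h11 8) (by positivity) (by linarith only [hD1])
  have h12 : E * ∑ d ∈ Icc 1 ⌊D⌋₊, (d.divisors.card : ℝ) ^ 3 ≤ E * (D * L ^ 8) :=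
    mul_le_mul_of_nonneg_left (h4.trans h5) hE0'
  -- the error term
  have hsqrt : Real.sqrt P = (P : ℝ) ^ (1 / 2 : ℝ) := Real.sqrt_eq_rpow P
  have hys : y ≤ Real.sqrt P := by
    rw [hsqrt, hy]
    exact Real.rpow_le_rpow_of_exponent_le hP1 (by norm_num)
  have h1s : 1 ≤ Real.sqrt P := by
    rw [hsqrt]
    exact Real.one_le_rpow hP1 (by norm_num)
  have h13 : E ≤ 24 * Real.sqrt P * L ^ 3 := by
    rw [hE]
    refine mul_le_mul_of_nonneg_right ?_ (by positivity)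
    linarith only [hy1, hys]
  have h14 : E * (D * L ^ 8) ≤ 24 * Real.sqrt P * L ^ 3 * (D * L ^ 8) :=
    mul_le_mul_of_nonneg_right h13 (by positivity)
  have h15 : Real.sqrt P * D * (P : ℝ) ^ (1 / 400 : ℝ) = P := by
    rw [hsqrt, hD, ← Real.rpow_add hP0, ← Real.rpow_add hP0]
    norm_num
  have h16 := hP₂ P hPP₂
  have hL4 : 0 < L ^ 5 := by positivity
  have h17 : 24 * Real.sqrt P * L ^ 3 * (D * L ^ 8) ≤ P / L ^ 5 := by
    rw [le_div_iff₀ hL4]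
    have h18 : 24 * Real.sqrt P * L ^ 3 * (D * L ^ 8) * L ^ 5 =
        Real.sqrt P * D * (24 * L ^ 16) := by ring
    rw [h18]
    exact (mul_le_mul_of_nonneg_left h16 (by positivity)).trans (le_of_eq h15)
  have h19 : 2 * (P : ℝ) / L ^ 5 = P / L ^ 5 + P / L ^ 5 := by ring
  rw [h19]
  rw [h3'] at h3
  linarith only [hE2, h1, h3, h12, h14, h17]


theorem k5_wq_nonneg (P : ℕ) (y : ℝ) (n : ℕ) : 0 ≤ wq P y n := by
  unfold wq
  split_ifs
  · exact mul_nonneg (Real.log_natCast_nonneg n) (le_max_left _ _)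
  · exact le_refl _

theorem k5_wq_le (P : ℕ) (y : ℝ) (n : ℕ) (hn : n ∈ Icc 1 P) : wq P y n ≤ Real.log P ^ 2 := by
  rw [Finset.mem_Icc] at hn
  have hn0 : (1 : ℝ) ≤ n := by exact_mod_cast hn.1
  have hnP : (n : ℝ) ≤ P := by exact_mod_cast hn.2
  have hL : 0 ≤ Real.log P := Real.log_nonneg (hn0.trans hnP)
  have h2 := a03_kf_le P n (by omega) hn.1
  have h1 := a03_kf_nonneg P n
  have h4 : Real.log n ≤ Real.log P := Real.log_le_log (by linarith only [hn0]) hnP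
  unfold wq
  split_ifs
  · rw [pow_two]
    exact mul_le_mul h4 h2 h1 hL
  · positivity

theorem k5_Dset_mono {z z' Y : ℝ} (h : z ≤ z') : Dset z Y ⊆ Dset z' Y := by
  classical
  unfold Dset
  intro d hd
  rw [Finset.mem_filter] at hd ⊢
  refine ⟨hd.1, hd.2.1, fun p hp hpd => ?_⟩
  obtain ⟨h1, h2⟩ := hd.2.2 p hp hpd
  exact ⟨h1, h2.trans_le h⟩

open Classical in
/-- There are many primes `n ≤ P` for which `G n` has no odd prime factor `< P^(199/5800)`. -/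
theorem k5_count : ∃ c : ℝ, 0 < c ∧ ∃ P₀ : ℕ, ∀ P : ℕ, P₀ ≤ P → ∀ G : ℕ → ℤ, PolyLike G →
    (∀ p : ℕ, p.Prime → rhoG G p ≤ 4) → Dens3 (nuG G) → (∀ n ∈ Icc 1 P, 0 < G n) →
    c * (P : ℝ) / Real.log P ^ 5 ≤ (((Icc 1 P).filter (fun n => n.Prime ∧ 3 ≤ n ∧
      Sft ((P : ℝ) ^ (199 / 5800 : ℝ)) (aG G n))).card : ℝ) := by
  classical
  obtain ⟨D₀, _, hW⟩ := lower_sieve3
  obtain ⟨c1, u₀, hc1, hu₀, hV⟩ := m3_VV_ge
  obtain ⟨P₁, hR⟩ := k5_rem_sum
  refine ⟨0.08 * c1, by positivity, ?_⟩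
  have t1 : Filter.Tendsto (fun P : ℕ => ((P : ℝ)) ^ (199 / 400 : ℝ)) Filter.atTop Filter.atTop :=
    (tendsto_rpow_atTop (by norm_num)).comp tendsto_natCast_atTop_atTop
  have t2 : Filter.Tendsto (fun P : ℕ => ((P : ℝ)) ^ (199 / 5800 : ℝ)) Filter.atTop Filter.atTop :=
    (tendsto_rpow_atTop (by norm_num)).comp tendsto_natCast_atTop_atTop
  have t3 : Filter.Tendsto (fun P : ℕ => Real.log (P : ℝ)) Filter.atTop Filter.atTop :=
    Real.tendsto_log_atTop.comp tendsto_natCast_atTop_atTop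
  have ev := ((t1.eventually_ge_atTop D₀).and (t2.eventually_ge_atTop u₀)).and
    ((t3.eventually_ge_atTop (40 / c1)).and
      ((t3.eventually_ge_atTop 1).and (Filter.eventually_ge_atTop (max P₁ 2))))
  obtain ⟨P₀, hP₀⟩ := Filter.eventually_atTop.1 ev
  refine ⟨P₀, ?_⟩
  intro P hP G hG h4G hdens hpos
  obtain ⟨⟨hD, hz⟩, hL1, hL, hPP⟩ := hP₀ P hP
  have hP1 : P₁ ≤ P := (le_max_left _ _).trans hPP
  have hP2 : 2 ≤ P := (le_max_right _ _).trans hPP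
  have hPpos : (0 : ℝ) < P := by exact_mod_cast (by omega : 0 < P)
  have hP1' : (1 : ℝ) ≤ P := by exact_mod_cast (by omega : 1 ≤ P)
  set L := Real.log (P : ℝ) with hLdef
  have hLpos : 0 < L := by linarith only [hL]
  have e1 : ((P : ℝ) ^ (199 / 400 : ℝ)) ^ (2 / 29 : ℝ) = (P : ℝ) ^ (199 / 5800 : ℝ) := by
    rw [← Real.rpow_mul hPpos.le]; norm_num
  set z : ℝ := (P : ℝ) ^ (199 / 5800 : ℝ) with hzdef
  set y : ℝ := (P : ℝ) ^ (1791 / 4000 : ℝ) with hydef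
  set D : ℝ := (P : ℝ) ^ (199 / 400 : ℝ) with hDdef
  have hzy : z ≤ y := Real.rpow_le_rpow_of_exponent_le hP1' (by norm_num)
  have hw := hW D hD (Icc 1 P) (wq P y) (aG G) (P : ℝ) (nuG G) (k5_wq_nonneg P y) hPpos.le hdens
  rw [e1] at hw
  have hr := hR P hP1 G hG h4G hpos
  have hv := hV (nuG G) hdens z hz
  have hlz : Real.log z = 199 / 5800 * L := by
    rw [hzdef, Real.log_rpow hPpos]
  have hlD : Real.log D = 199 / 400 * L := by
    rw [hDdef, Real.log_rpow hPpos]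
  rw [hlz] at hv
  rw [hlD] at hw
  have hv2 : c1 / L ^ 3 ≤ VV (nuG G) z := by
    refine le_trans ?_ hv
    apply div_le_div_of_nonneg_left hc1.le
    · positivity
    · have : 199 / 5800 * L ≤ L := by nlinarith only [hL]
      exact pow_le_pow_left₀ (by positivity) this 3
  have hRnn : ∀ d, 0 ≤ Rem (Icc 1 P) (wq P y) (aG G) P (nuG G) d := fun d => by
    unfold Rem
    exact abs_nonneg _
  have hS1 : ∑ d ∈ Dset z D, Rem (Icc 1 P) (wq P y) (aG G) P (nuG G) d ≤ 2 * (P : ℝ) / L ^ 5 := by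
    refine le_trans ?_ hr
    refine (Finset.sum_le_sum_of_subset_of_nonneg (k5_Dset_mono hzy) fun d _ _ => hRnn d).trans ?_
    refine Finset.sum_le_sum fun d hd => ?_
    have hd1 : 1 ≤ d := by
      unfold Dset at hd
      exact (Finset.mem_Icc.1 (Finset.mem_filter.1 hd).1).1
    have h1 : 1 ≤ d.divisors.card := Finset.card_pos.2 ⟨1, Nat.one_mem_divisors.2 (by omega)⟩
    have h2 : (1 : ℝ) ≤ (d.divisors.card : ℝ) := by exact_mod_cast h1
    have h3 : (1 : ℝ) ≤ (d.divisors.card : ℝ) ^ 3 := one_le_pow₀ h2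
    exact le_mul_of_one_le_left (hRnn d) h3
  have hS2 : 199 / 400 * L * ∑ d ∈ Dset z D, Rem (Icc 1 P) (wq P y) (aG G) P (nuG G) d ≤
      2 * P / L ^ 4 := by
    calc 199 / 400 * L * ∑ d ∈ Dset z D, Rem (Icc 1 P) (wq P y) (aG G) P (nuG G) d
        ≤ 199 / 400 * L * (2 * (P : ℝ) / L ^ 5) := mul_le_mul_of_nonneg_left hS1 (by positivity)
      _ ≤ L * (2 * (P : ℝ) / L ^ 5) := by
          apply mul_le_mul_of_nonneg_right _ (by positivity)
          nlinarith only [hL]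
      _ = 2 * P / L ^ 4 := by
          field_simp
  have hmain : 0.17 * (P : ℝ) * (c1 / L ^ 3) ≤ 0.17 * (P : ℝ) * VV (nuG G) z :=
    mul_le_mul_of_nonneg_left hv2 (by positivity)
  have hfin : 0.08 * c1 * (P : ℝ) / L ^ 3 ≤ 0.17 * (P : ℝ) * (c1 / L ^ 3) - 2 * P / L ^ 4 := by
    have h40 : 40 ≤ L * c1 := by
      rw [div_le_iff₀ hc1] at hL1
      exact hL1
    have hx : 2 * (P : ℝ) / L ^ 4 ≤ 0.05 * c1 * (P : ℝ) / L ^ 3 := by
      rw [div_le_div_iff₀ (by positivity) (by positivity)]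
      have : 2 * (P : ℝ) * L ^ 3 ≤ 0.05 * (L * c1) * (P : ℝ) * L ^ 3 := by
        apply mul_le_mul_of_nonneg_right _ (by positivity)
        apply mul_le_mul_of_nonneg_right _ hPpos.le
        linarith only [h40]
      calc 2 * (P : ℝ) * L ^ 3 ≤ 0.05 * (L * c1) * (P : ℝ) * L ^ 3 := this
        _ = 0.05 * c1 * (P : ℝ) * L ^ 4 := by ring
    have hy : 0.17 * (P : ℝ) * (c1 / L ^ 3) =
        0.08 * c1 * (P : ℝ) / L ^ 3 + 0.05 * c1 * (P : ℝ) / L ^ 3 + 0.04 * c1 * (P : ℝ) / L ^ 3 := by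
      field_simp
      ring
    have hw : 0 ≤ 0.04 * c1 * (P : ℝ) / L ^ 3 := by positivity
    rw [hy]
    linarith only [hx, hw]
  -- the count
  have hcount : Ssum (Icc 1 P) (wq P y) (aG G) z ≤ L ^ 2 * (((Icc 1 P).filter (fun n => n.Prime ∧
      3 ≤ n ∧ Sft z (aG G n))).card : ℝ) := by
    unfold Ssum
    have h1 : ∀ i ∈ (Icc 1 P).filter (fun i => Sft z (aG G i)), wq P y i ≤
        if i ∈ (Icc 1 P).filter (fun n => n.Prime ∧ 3 ≤ n ∧ Sft z (aG G n)) then L ^ 2 else 0 := by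
      intro i hi
      obtain ⟨hi1, hi2⟩ := Finset.mem_filter.mp hi
      by_cases hpr : i.Prime ∧ y < (i : ℝ)
      · have h7 : (7 : ℝ) < i := by linarith only [hu₀, hz, hzy, hpr.2]
        have h7' : 7 < i := by exact_mod_cast h7
        rw [if_pos (Finset.mem_filter.mpr ⟨hi1, hpr.1, by omega, hi2⟩)]
        exact k5_wq_le P y i hi1
      · have h5 : wq P y i = 0 := by
          unfold wq
          rw [if_neg hpr]
        rw [h5]
        split_ifs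
        · positivity
        · exact le_rfl
    refine (Finset.sum_le_sum h1).trans ?_
    rw [← Finset.sum_filter, Finset.sum_const, nsmul_eq_mul, mul_comm]
    apply mul_le_mul_of_nonneg_left _ (by positivity)
    exact_mod_cast Finset.card_le_card fun i hi => (Finset.mem_filter.mp hi).2
  have hall : 0.08 * c1 * (P : ℝ) / L ^ 3 ≤ L ^ 2 * (((Icc 1 P).filter (fun n => n.Prime ∧
      3 ≤ n ∧ Sft z (aG G n))).card : ℝ) := by
    linarith only [hw, hS2, hmain, hfin, hcount]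
  have e5 : 0.08 * c1 * (P : ℝ) / L ^ 5 = (0.08 * c1 * (P : ℝ) / L ^ 3) / L ^ 2 := by
    field_simp
  rw [e5, div_le_iff₀ (by positivity)]
  refine hall.trans (le_of_eq ?_)
  rw [mul_comm]

end Pool.Agent.Lib.MP_57ec86_nt
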