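import Pool.Agent.Lib.MP_57ec86_nt.K5

/-! The polynomial `2 (2z+1) (2xyz+1)` in `m = 2y+1`, `y + z = N`, and the final count. -/

set_option autoImplicit false

namespace Pool.Agent.Lib.MP_57ec86_nt

open Finset Pool.Agent.Lib.MP_d9bc60_nt.UV Pool.Agent.Lib.MP_d9bc60_nt.AP

/-- `2 (2z+1) (2xyz+1)` for `m = 2y+1` and `y + z = N` -/
def gF (x N : ℕ) (m : ℕ) : ℤ :=
  (2 * (N : ℤ) + 2 - m) * ((x : ℤ) * ((m : ℤ) - 1) * (2 * (N : ℤ) + 1 - m) + 2)

theorem gF_poly (x N : ℕ) : PolyLike (gF x N) := by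
  intro d a b h
  have h1 : (a : ℤ) ≡ b [ZMOD d] := Int.natCast_modEq_iff.2 h
  have h2 : gF x N a ≡ gF x N b [ZMOD d] := by
    unfold gF
    exact ((Int.ModEq.refl _).sub h1).mul ((((Int.ModEq.refl _).mul (h1.sub (Int.ModEq.refl _))).mul
      ((Int.ModEq.refl _).sub h1)).add (Int.ModEq.refl _))
  rw [← Int.modEq_zero_iff_dvd, ← Int.modEq_zero_iff_dvd]
  exact ⟨fun h => h2.symm.trans h, fun h => h2.trans h⟩

open Polynomial in
theorem rhoF_le (x N p : ℕ) (hp : p.Prime) (h3 : 3 ≤ p) : rhoG (gF x N) p ≤ 3 := by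
  classical
  haveI : Fact p.Prime := ⟨hp⟩
  set A : (ZMod p)[X] := C (2 * (N : ZMod p) + 2) - X with hA
  set B : (ZMod p)[X] := C (x : ZMod p) * (X - C 1) * (C (2 * (N : ZMod p) + 1) - X) + C 2 with hB
  have hA0 : A ≠ 0 := by
    intro h
    have h1 := congrArg (Polynomial.eval (2 * (N : ZMod p) + 1)) h
    simp only [hA, eval_sub, eval_C, eval_X, eval_zero] at h1
    have h2 : (1 : ZMod p) = 0 := by linear_combination h1
    exact one_ne_zero h2
  have hB0 : B ≠ 0 := by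
    intro h
    have h1 := congrArg (Polynomial.eval (1 : ZMod p)) h
    simp only [hB, eval_add, eval_mul, eval_sub, eval_C, eval_X, eval_zero, sub_self, mul_zero, zero_mul,
      zero_add] at h1
    have h2 : ((2 : ℕ) : ZMod p) = 0 := by exact_mod_cast h1
    rw [ZMod.natCast_eq_zero_iff] at h2
    have := Nat.le_of_dvd (by norm_num) h2
    omega
  have hdeg : (A * B).natDegree ≤ 3 := by
    have h1 : A.natDegree ≤ 1 := by rw [hA]; compute_degree
    have h2 : B.natDegree ≤ 2 := by rw [hB]; compute_degree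
    exact (natDegree_mul_le).trans (by omega)
  have hcard : (A * B).roots.toFinset.card ≤ 3 :=
    (Multiset.toFinset_card_le _).trans ((card_roots' _).trans hdeg)
  refine le_trans ?_ hcard
  rw [rhoG]
  refine Finset.card_le_card_of_injOn (fun r : ℕ => (r : ZMod p)) ?_ ?_
  · intro r hr
    have hr' := (Finset.mem_filter.1 (Finset.mem_coe.1 hr)).2.2
    rw [← ZMod.intCast_zmod_eq_zero_iff_dvd] at hr'
    rw [Finset.mem_coe, Multiset.mem_toFinset, mem_roots (mul_ne_zero hA0 hB0), IsRoot.def]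
    rw [gF] at hr'
    push_cast at hr'
    simp only [hA, hB, eval_mul, eval_add, eval_sub, eval_C, eval_X]
    linear_combination hr'
  · intro r hr s hs hrs
    have h1 := Finset.mem_range.1 (Finset.mem_filter.1 (Finset.mem_coe.1 hr)).1
    have h2 := Finset.mem_range.1 (Finset.mem_filter.1 (Finset.mem_coe.1 hs)).1
    simp only at hrs
    rw [ZMod.natCast_eq_natCast_iff', Nat.mod_eq_of_lt h1, Nat.mod_eq_of_lt h2] at hrs
    exact hrs

theorem rhoF_le_four (x N p : ℕ) (hp : p.Prime) : rhoG (gF x N) p ≤ 4 := by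
  by_cases h : 3 ≤ p
  · exact (rhoF_le x N p hp h).trans (by norm_num)
  · rw [rhoG]
    refine (Finset.card_filter_le _ _).trans ?_
    rw [Finset.card_range]
    omega

theorem k6_mod3 : ∀ x N : ZMod 3, ¬ (x = 1 ∧ N = 1) →
    ¬ ((2 * N + 2 - 1) * (x * (1 - 1) * (2 * N + 1 - 1) + 2) = 0 ∧
      (2 * N + 2 - 2) * (x * (2 - 1) * (2 * N + 1 - 2) + 2) = 0) := by
  decide

theorem rhoF_three (x N : ℕ) (hx : ¬ (x % 3 = 1 ∧ N % 3 = 1)) : rhoG (gF x N) 3 ≤ 1 := by
  classical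
  by_contra hcon
  push Not at hcon
  rw [rhoG] at hcon
  set S := (range 3).filter (fun r => r.Coprime 3 ∧ ((3 : ℕ) : ℤ) ∣ gF x N r) with hS
  have hsub : S ⊆ {1, 2} := by
    intro r hr
    rw [hS, Finset.mem_filter, Finset.mem_range] at hr
    obtain ⟨h1, h2, -⟩ := hr
    interval_cases r
    · exact absurd h2 (by decide)
    · simp
    · simp
  have hcard : ({1, 2} : Finset ℕ).card ≤ S.card := by
    have : ({1, 2} : Finset ℕ).card = 2 := by decide
    omega
  have heq : S = {1, 2} := Finset.eq_of_subset_of_card_le hsub hcard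
  have m1 : 1 ∈ S := by rw [heq]; simp
  have m2 : 2 ∈ S := by rw [heq]; simp
  have d1 := (Finset.mem_filter.1 m1).2.2
  have d2 := (Finset.mem_filter.1 m2).2.2
  rw [← ZMod.intCast_zmod_eq_zero_iff_dvd, gF] at d1 d2
  push_cast at d1 d2
  refine k6_mod3 (x : ZMod 3) (N : ZMod 3) ?_ ⟨by linear_combination d1, by linear_combination d2⟩
  rintro ⟨h1, h2⟩
  apply hx
  have e1 : ((x : ℕ) : ZMod 3) = ((1 : ℕ) : ZMod 3) := by rw [h1]; simp
  have e2 : ((N : ℕ) : ZMod 3) = ((1 : ℕ) : ZMod 3) := by rw [h2]; simp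
  rw [ZMod.natCast_eq_natCast_iff'] at e1 e2
  exact ⟨e1, e2⟩

theorem densF (x N : ℕ) (hx : ¬ (x % 3 = 1 ∧ N % 3 = 1)) : Dens3 (nuG (gF x N)) where
  one := by
    have h : rhoG (gF x N) 1 = 1 := by
      rw [rhoG, Finset.filter_true_of_mem]
      · simp
      · intro r _
        exact ⟨Nat.coprime_one_right r, by simp⟩
    rw [nuG, h]
    simp
  nonneg := fun d => div_nonneg (Nat.cast_nonneg _) (Nat.cast_nonneg _)
  mul := by
    intro d e h
    rw [nuG, nuG, nuG, rhoG_mul (gF_poly x N) d e h, Nat.totient_mul h]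
    push_cast
    rw [div_mul_div_comm]
  three := by
    have h1 : ((rhoG (gF x N) 3 : ℕ) : ℝ) ≤ 1 := by exact_mod_cast rhoF_three x N hx
    have h2 : Nat.totient 3 = 2 := by decide
    rw [nuG, h2]
    push_cast
    linarith
  le := by
    intro p hp h5
    have h1 : ((rhoG (gF x N) p : ℕ) : ℝ) ≤ 3 := by exact_mod_cast rhoF_le x N p hp (by omega)
    have h2 : ((Nat.totient p : ℕ) : ℝ) = (p : ℝ) - 1 := by
      rw [Nat.totient_prime hp, Nat.cast_sub hp.one_le, Nat.cast_one]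
    have h3 : (5 : ℝ) ≤ p := by exact_mod_cast h5
    rw [nuG, h2]
    exact div_le_div_of_nonneg_right h1 (by linarith)

theorem gF_pos (x N n : ℕ) (h1 : 1 ≤ n) (h2 : n ≤ 2 * N - 1) : 0 < gF x N n := by
  have e1 : (1 : ℤ) ≤ n := by exact_mod_cast h1
  have e2 : (n : ℤ) + 1 ≤ 2 * N := by omega
  unfold gF
  have e3 : (0 : ℤ) ≤ (x : ℤ) * ((n : ℤ) - 1) * (2 * (N : ℤ) + 1 - n) :=
    mul_nonneg (mul_nonneg (by positivity) (by linarith)) (by linarith)
  exact mul_pos (by linarith) (by linarith)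

/-- numbers without small odd prime factors have few prime factors -/
theorem k6_omega {z : ℝ} (hz : 1 < z) {a b : ℕ} (ha : Odd a) (hab : a ∣ b) (h : Sft z b) :
    z ^ (ArithmeticFunction.cardFactors a : ℕ) ≤ (a : ℝ) := by
  have ha0 : a ≠ 0 := by
    rintro rfl
    exact absurd ha (by decide)
  have h1 : ∀ p ∈ a.primeFactorsList, ⌈z⌉₊ ≤ p := by
    intro p hp
    have hpp := Nat.prime_of_mem_primeFactorsList hp
    have hpa := Nat.dvd_of_mem_primeFactorsList hp
    have h3 : 3 ≤ p := by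
      have h2 := hpp.two_le
      have hne : p ≠ 2 := by
        rintro rfl
        exact (Nat.not_even_iff_odd.2 ha) (even_iff_two_dvd.2 hpa)
      omega
    by_contra hcon
    push Not at hcon
    exact h p hpp h3 (Nat.lt_ceil.1 hcon) (hpa.trans hab)
  have h2 : ⌈z⌉₊ ^ a.primeFactorsList.length ≤ a.primeFactorsList.prod :=
    List.pow_card_le_prod _ _ h1
  rw [Nat.prod_primeFactorsList ha0, ← ArithmeticFunction.cardFactors_apply] at h2
  have h3 : z ^ (ArithmeticFunction.cardFactors a : ℕ) ≤ (⌈z⌉₊ : ℝ) ^ (ArithmeticFunction.cardFactors a : ℕ) :=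
    pow_le_pow_left₀ (by linarith) (Nat.le_ceil z) _
  refine h3.trans ?_
  exact_mod_cast h2

theorem k6_omega2 {P : ℝ} (hP : 1 < P) {a t : ℕ} (ha : (a : ℝ) ≤ P ^ t) (m : ℕ)
    (h : (P ^ (199 / 5800 : ℝ)) ^ (m : ℕ) ≤ (a : ℝ)) : 199 * m ≤ 5800 * t := by
  have h1 := h.trans ha
  rw [← Real.rpow_natCast, ← Real.rpow_mul (by linarith), ← Real.rpow_natCast P t,
    Real.rpow_le_rpow_left_iff hP] at h1
  have h2 : (199 : ℝ) * m ≤ 5800 * t := by linarith
  exact_mod_cast h2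

end Pool.Agent.Lib.MP_57ec86_nt
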